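import Pool.Agent.Helper52.RP.PartC
import Pool.Agent.Helper26.RC.Main

/-!
# Regular maps and curves, improved: main assembly
-/

set_option autoImplicit false

namespace Pool.Agent.Helper52.RP

open MvPolynomial Filter Topology NumberField
open Pool.Agent.Helper64.Vojta (Pl nv above mem_above)
open Pool.Agent.Helper26.RC

section main

variable {K Ω : Type*} [Field K] [NumberField K] [Field Ω] [Algebra K Ω] {N d : ℕ}

/-- The hypothesis on the points at infinity: the multiplicity of a period is less than its degree. -/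
def MultLt (Ω : Type*) [Field Ω] [Algebra K Ω] (d : ℕ) (Φ : Fin N → MvPolynomial (Fin N) K)
    (I : Ideal (MvPolynomial (Fin N) K)) : Prop :=
  ∀ F : IntermediateField K Ω, FiniteDimensional K F → Module.finrank K F ≤ 2 →
    ∀ z : Fin N → F, z ≠ 0 → (∀ f ∈ I, aeval z (homogeneousComponent f.totalDegree f) = 0) →
    (∃ k, 0 < k ∧ ∃ c : F, c ≠ 0 ∧ ∀ i, eval z (Gk d (bc F Φ) k i) = c * z i) →
    ∃ k, 0 < k ∧ (∃ c : F, c ≠ 0 ∧ ∀ i, eval z (Gk d (bc F Φ) k i) = c * z i) ∧
      mult z (sysI d (bc F Φ) k z) < (d ^ k : ℕ)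

omit [NumberField K] in
theorem hc_map {F : Type*} [Field F] (f : K →+* F) (e : ℕ) (g : MvPolynomial (Fin N) K) :
    homogeneousComponent e (MvPolynomial.map f g) = MvPolynomial.map f (homogeneousComponent e g) := by
  ext n
  rw [coeff_homogeneousComponent, coeff_map, coeff_map, coeff_homogeneousComponent]
  split_ifs
  · rfl
  · rw [map_zero]

omit [NumberField K] in
theorem eval_Gk (F : IntermediateField K Ω) (Φ : Fin N → MvPolynomial (Fin N) K) (k : ℕ)
    (z : Fin N → F) (i : Fin N) :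
    algebraMap F Ω (eval z (Gk d (bc F Φ) k i)) =
      (infMap d Φ)^[k] (fun j => algebraMap F Ω (z j)) i := by
  have h : ∀ (k : ℕ) (f : MvPolynomial (Fin N) F),
      eval z ((bind₁ (fun i => homogeneousComponent d (bc F Φ i)))^[k] f) =
        eval ((fun (z : Fin N → F) i => eval z (homogeneousComponent d (bc F Φ i)))^[k] z) f := by
    intro k
    induction k with
    | zero => intro f; rfl
    | succ k ih =>
      intro f
      rw [Function.iterate_succ_apply, ih, Function.iterate_succ_apply', eval, eval₂Hom_bind₁]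
      rfl
  unfold Gk
  rw [h, eval_X]
  induction k generalizing i with
  | zero => rfl
  | succ k ih =>
    rw [Function.iterate_succ_apply', Function.iterate_succ_apply']
    have h2 : (infMap d Φ)^[k] (fun j => algebraMap F Ω (z j)) = fun i => algebraMap F Ω
        (((fun (z : Fin N → F) i => eval z (homogeneousComponent d (bc F Φ i)))^[k] z) i) :=
      funext fun i => (ih i).symm
    rw [h2]
    set w := (fun (z : Fin N → F) i => eval z (homogeneousComponent d (bc F Φ i)))^[k] z
    unfold infMap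
    have h3 := MvPolynomial.aeval_algebraMap_apply Ω w (homogeneousComponent d (bc F Φ i))
    change algebraMap F Ω (eval w (homogeneousComponent d (bc F Φ i))) = _
    rw [← MvPolynomial.coe_aeval_eq_eval]
    refine h3.symm.trans ?_
    unfold bc
    rw [hc_map]
    exact MvPolynomial.aeval_map_algebraMap F _ _

theorem main_inj [IsAlgClosure K Ω] (hd : 2 ≤ d) {Φ : Fin N → MvPolynomial (Fin N) K}
    (hΦ : Reg Ω d Φ) {α : Fin N → K} (hinj : Function.Injective (orb Φ α))
    {I : Ideal (MvPolynomial (Fin N) K)}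
    (hI : ∀ P : Ideal (MvPolynomial (Fin N) K), P.IsPrime → I ≤ P →
      Algebra.trdeg K (MvPolynomial (Fin N) K ⧸ P) ≤ 1) (hcrit : MultLt Ω d Φ I)
    {U : Ultrafilter ℕ} (hU : (U : Filter ℕ) ≤ cofinite)
    (hR : {n | ∀ f ∈ I, eval (orb Φ α n) f = 0} ∈ U) :
    ∃ m, 0 < m ∧ ∀ f, f ∈ van U (back Φ α 0) → (cmp Φ)^[m] f ∈ van U (back Φ α 0) := by
  classical
  have : IsAlgClosed Ω := IsAlgClosure.isAlgClosed K
  have hd1 : 1 ≤ d := by omega
  have hdR : (0 : ℝ) < d := by exact_mod_cast (by omega : 0 < d)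
  -- growth of the local sizes
  choose G C hG0 hG using fun v : Pl K => orb_growth (Ω := Ω) hd hΦ α v
  obtain ⟨S, hS⟩ := exists_S Φ α
  have hpos : ∃ v ∈ S, 0 < G v := by
    obtain ⟨v, hv, hunb⟩ := unbounded hinj hS
    refine ⟨v, hv, (hG0 v).lt_of_ne fun h => ?_⟩
    obtain ⟨n, hn⟩ := hunb (C v)
    have h1 := hG v n
    rw [← h, zero_mul, sub_zero] at h1
    exact absurd ((le_abs_self _).trans h1) (not_le.2 hn)
  let t : ℕ → ℝ := fun n => (d : ℝ) ^ n
  have htop : Tendsto t atTop atTop :=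
    tendsto_pow_atTop_atTop_of_one_lt (by exact_mod_cast (by omega : 1 < d))
  have ht : Tendsto t (U : Filter ℕ) atTop := htop.mono_left (Nat.cofinite_eq_atTop ▸ hU)
  let g : ℕ → Pl K → ℝ := fun l v => G v / d ^ l
  have hg : ∀ l v, Tendsto (fun n => Real.log (sz (av v) (back Φ α l n)) / t n) (U : Filter ℕ)
      (𝓝 (g l v)) := fun l v => rate_back hd hU (hG v) l
  have hgpos : ∀ l v, 0 < G v → 0 < g l v := fun l v h => div_pos h (pow_pos hdR l)
  have hgpos' : ∀ l v, 0 < g l v → 0 < G v := by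
    intro l v h
    by_contra hcon
    have h1 : G v = 0 := le_antisymm (not_lt.1 hcon) (hG0 v)
    simp [g, h1] at h
  have hSb : ∀ l n, ∀ v, v ∉ S → ∀ i, nv v (back Φ α l n i) ≤ 1 := fun l n v hv i => hS (n - l) v hv i
  have htd := fun l => trdeg_back (Ω := Ω) hd hΦ hI hU hR l
  -- absolute values of the closure
  choose μ hμ using fun v : Pl K => exists_ext (Ω := Ω) v
  have hgrow : ∀ l v, 0 < G v →
      Tendsto (fun n => Real.log (sz (μ v) (emb Ω (back Φ α l) n))) (U : Filter ℕ) atTop := by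
    intro l v hv
    have h1 := (hg l v).pos_mul_atTop (hgpos l v hv) ht
    refine h1.congr fun n => ?_
    have h2 : t n ≠ 0 := (pow_pos hdR n).ne'
    rw [sz_emb (hμ v)]
    field_simp
  have hcv : ∀ l v, 0 < G v → Cv (μ v) U (emb Ω (back Φ α l)) := fun l v hv =>
    ⟨hgrow l v hv, trdeg_emb (htd l)⟩
  have hdir : ∀ l v, ∃ q : Fin N → Ω, 0 < G v → Dir (μ v) U (emb Ω (back Φ α l)) q := by
    intro l v
    by_cases h : 0 < G v
    · obtain ⟨q, hq⟩ := dir_exists (hcv l v h)
      exact ⟨q, fun _ => hq⟩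
    · exact ⟨0, fun h' => absurd h' h⟩
  choose qq hqq using hdir
  have hstepv : ∀ v, 0 < G v → ∀ l, ∃ c : Ω, c ≠ 0 ∧ infMap d Φ (qq (l + 1) v) = c • qq l v :=
    fun v hv l => dir_map hΦ (hgrow l v hv) (hgrow (l + 1) v hv) (back_step Φ α hU l) (hqq l v hv)
      (hqq (l + 1) v hv)
  -- Part A
  have hA : ∀ l, ∃ v ∈ S, 0 < G v ∧ ∀ σ : Fin 3 → (Ω ≃ₐ[K] Ω),
      ¬ Function.Injective fun (i : Fin 3) (j : Fin N) => σ i (qq l v j) := by
    intro l
    obtain ⟨v, hv, hv', h⟩ := partA U (back Φ α l) S (hSb l) t ht (g l) (fun v _ => hg l v)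
      (by obtain ⟨v, h1, h2⟩ := hpos; exact ⟨v, h1, hgpos l v h2⟩) μ (fun v _ => hμ v)
      (fun v _ h => hcv l v (hgpos' l v h)) (qq l) (fun v _ h => hqq l v (hgpos' l v h))
    exact ⟨v, hv, hgpos' l v hv', h⟩
  obtain ⟨v, hvS, hv, hfew⟩ : ∃ v ∈ S, 0 < G v ∧ ∀ l, ∀ σ : Fin 3 → (Ω ≃ₐ[K] Ω),
      ¬ Function.Injective fun (i : Fin 3) (j : Fin N) => σ i (qq l v j) := by
    by_contra hcon
    push Not at hcon
    have h1 : ∀ v : Pl K, ∃ l0, v ∈ S → 0 < G v → ∀ l, l0 ≤ l → ∃ σ : Fin 3 → (Ω ≃ₐ[K] Ω),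
        Function.Injective fun (i : Fin 3) (j : Fin N) => σ i (qq l v j) := by
      intro v
      by_cases h : v ∈ S ∧ 0 < G v
      · obtain ⟨l0, σ, hσ⟩ := hcon v h.1 h.2
        refine ⟨l0, fun _ _ l hl => ⟨σ, ?_⟩⟩
        induction l, hl using Nat.le_induction with
        | base => exact hσ
        | succ l hl ih => exact few_mono (hqq l v h.2).nrm (hstepv v h.2 l) ih
      · exact ⟨0, fun h1 h2 => absurd ⟨h1, h2⟩ h⟩
    choose l0 hl0 using h1
    obtain ⟨v, hv, hv', h⟩ := hA (S.sup l0)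
    obtain ⟨σ, hσ⟩ := hl0 v hv hv' (S.sup l0) (Finset.le_sup hv)
    exact h σ hσ
  -- the periodic cycle at infinity
  let q : ℕ → Fin N → Ω := fun l => qq l v
  have hdirq : ∀ l, Dir (μ v) U (emb Ω (back Φ α l)) (q l) := fun l => hqq l v hv
  have hn : ∀ l, Nrm (q l) := fun l => (hdirq l).nrm
  have hstep : ∀ l, ∃ c : Ω, c ≠ 0 ∧ infMap d Φ (q (l + 1)) = c • q l := hstepv v hv
  obtain ⟨F, hFfin, hF2, hF⟩ := few_field hn hstep hfew
  obtain ⟨p, hp, hper⟩ := per_of_heights hd hΦ hn hstep F hF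
  choose c hc hcq using hstep
  have hcper : ∀ l, c (l + p) = c l := by
    intro l
    have h1 := hcq (l + p)
    rw [show l + p + 1 = (l + 1) + p by ring, hper, hper, hcq] at h1
    obtain ⟨i, hi, -⟩ := hn l
    have h2 := congrFun h1 i
    rw [Pi.smul_apply, Pi.smul_apply, hi, smul_eq_mul, smul_eq_mul, mul_one, mul_one] at h2
    exact h2.symm
  have hcF : ∀ l, c l ∈ F := by
    intro l
    obtain ⟨i, hi, -⟩ := hn l
    have h1 := congrFun (hcq l) i
    rw [Pi.smul_apply, hi, smul_eq_mul, mul_one] at h1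
    rw [← h1]
    exact aeval_mem F (hF (l + 1)) _
  -- the point over the quadratic field
  let z : Fin N → F := fun j => ⟨q 0 j, hF 0 j⟩
  have hzq : (fun j => algebraMap F Ω (z j)) = q 0 := rfl
  have hinf : ∀ f ∈ I, aeval z (homogeneousComponent f.totalDegree f) = 0 := by
    intro f hf
    have h1 : aeval (q 0) (homogeneousComponent f.totalDegree f) = 0 := by
      refine at_inf (hgrow 0 v hv) (hdirq 0) ?_
      rw [mem_van]
      filter_upwards [hR] with n hn
      exact hn f hf
    have h2 := MvPolynomial.aeval_algebraMap_apply Ω z (homogeneousComponent f.totalDegree f)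
    have h3 : algebraMap F Ω (aeval z (homogeneousComponent f.totalDegree f)) = 0 := by
      rw [← h2]
      exact h1
    rwa [map_eq_zero] at h3
  have hz0 : z ≠ 0 := by
    intro h0
    refine nrm_ne_zero (hn 0) ?_
    rw [← hzq, h0]
    funext j
    exact map_zero _
  have hstep' : ∀ l, ∃ c : Ω, c ≠ 0 ∧ infMap d Φ (q (l + 1)) = c • q l := fun l =>
    ⟨c l, hc l, hcq l⟩
  obtain ⟨i0, hi0, hlt0⟩ := hn 0
  -- eigenvalues over the quadratic field
  have heig : ∀ (k : ℕ) (c' : Ω), c' ≠ 0 → (infMap d Φ)^[k] (q 0) = c' • q 0 →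
      ∃ c : F, c ≠ 0 ∧ ∀ i, eval z (Gk d (bc F Φ) k i) = c * z i := by
    intro k c' hc' h
    have h1 : ∀ i, algebraMap F Ω (eval z (Gk d (bc F Φ) k i)) = c' * q 0 i := by
      intro i
      rw [eval_Gk, hzq, h]
      rfl
    have h2 : algebraMap F Ω (eval z (Gk d (bc F Φ) k i0)) = c' := by
      rw [h1, hi0, mul_one]
    refine ⟨eval z (Gk d (bc F Φ) k i0), fun h0 => hc' ?_, fun i => ?_⟩
    · rw [← h2, h0, map_zero]
    · refine (algebraMap F Ω).injective ?_
      rw [map_mul, h2, h1]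
      rfl
  obtain ⟨k, hk, ⟨κ, hκ, hqκ⟩, hmult⟩ := hcrit F hFfin hF2 z hz0 hinf (by
    obtain ⟨c', hc', h⟩ := iter_back hstep' p 0
    rw [hper 0] at h
    exact ⟨p, hp, heig p c' hc' h⟩)
  -- the sequence of the limit points is periodic with the period `k` at the multiples of `k`
  have hpermul : ∀ k, q (k * p) = q 0 := by
    intro k
    induction k with
    | zero => rw [zero_mul]
    | succ k ih => rw [Nat.succ_mul, hper, ih]
  have hk0 : (infMap d Φ)^[k] (q 0) = (algebraMap F Ω κ) • q 0 := by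
    funext i
    rw [← hzq, ← eval_Gk, hqκ, map_mul]
    rfl
  have hκ' : algebraMap F Ω κ ≠ 0 := by
    rw [Ne, map_eq_zero]
    exact hκ
  have hkr : ∀ r : ℕ, ∃ c : Ω, c ≠ 0 ∧ (infMap d Φ)^[k * r] (q 0) = c • q 0 := by
    intro r
    induction r with
    | zero => exact ⟨1, one_ne_zero, by simp⟩
    | succ r ih =>
      obtain ⟨c', hc', h⟩ := ih
      refine ⟨(algebraMap F Ω κ) ^ d ^ (k * r) * c', mul_ne_zero (pow_ne_zero _ hκ') hc', ?_⟩
      rw [Nat.mul_succ, Function.iterate_add_apply, hk0, infMap_iter_smul, h, smul_smul]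
  have hqk : ∀ i, q (k * i) = q 0 := by
    intro i
    obtain ⟨c1, hc1, h1⟩ := iter_back hstep' (k * (i * (p - 1))) (k * i)
    have h2 : k * i + k * (i * (p - 1)) = (k * i) * p := by
      obtain ⟨p', rfl⟩ : ∃ p', p = p' + 1 := ⟨p - 1, by omega⟩
      rw [Nat.add_sub_cancel]
      ring
    rw [h2, hpermul] at h1
    obtain ⟨c2, hc2, h3⟩ := hkr (i * (p - 1))
    rw [h3] at h1
    -- two proportional normalised vectors are equal
    obtain ⟨i1, hi1, hlt1⟩ := hn (k * i)
    have h4 : ∀ l, c2 * q 0 l = c1 * q (k * i) l := fun l => congrFun h1 l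
    have h5 : i1 = i0 := by
      rcases lt_trichotomy i1 i0 with h6 | h6 | h6
      · have h7 := h4 i1
        rw [hlt0 i1 h6, hi1, mul_zero, mul_one] at h7
        exact absurd h7.symm hc1
      · exact h6
      · have h7 := h4 i0
        rw [hlt1 i0 h6, hi0, mul_zero, mul_one] at h7
        exact absurd h7 hc2
    subst h5
    have h6 : c2 = c1 := by
      have h7 := h4 i1
      rwa [hi0, hi1, mul_one, mul_one] at h7
    funext l
    have h7 := h4 l
    rw [h6] at h7
    exact (mul_left_cancel₀ hc1 h7).symm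
  -- the sequences of the levels `k i`
  have hx : ∀ i, ∀ᶠ n in (U : Filter ℕ),
      back Φ α (k * i) n = (pmap Φ)^[k] (back Φ α (k * (i + 1)) n) := by
    intro i
    filter_upwards [eventually_ge hU (k * (i + 1))] with n hn
    unfold back orb
    rw [← Function.iterate_add_apply]
    congr 1
    have : k * (i + 1) = k * i + k := by ring
    omega
  obtain ⟨J, j, hJ, hJle⟩ := partB hd hΦ.1 F hF2 (q := z) (i0 := i0)
    (Subtype.ext hi0) (fun l hl => Subtype.ext (hlt0 l hl)) hk hκ hqκ hmult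
    (x := fun i => back Φ α (k * i)) hx (S := S) (fun i n v hv l => hSb (k * i) n v hv l) ht hG0
    (fun i v _ => by
      have h1 := hg (k * i) v
      have h2 : g (k * i) v = G v / ((d : ℝ) ^ k) ^ i := by
        simp only [g]
        rw [pow_mul]
      rw [h2] at h1
      exact h1) hvS hv (hμ v) (fun i => hgrow (k * i) v hv) (fun i => by
      have h1 := hdirq (k * i)
      rw [hqk] at h1
      exact h1)
  have hmin : ∀ i, van U (back Φ α (k * (i + j))) ∈ J.minimalPrimes := by
    intro i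
    obtain ⟨Q, hQ, hQle⟩ := Ideal.exists_minimalPrimes_le (hJle i)
    have hQp : Q.IsPrime := hQ.1.1
    have h1 : Algebra.trdeg K (MvPolynomial (Fin N) K ⧸ Q) ≤ 1 := hJ Q hQp hQ.1.2
    have h2 : ¬ Algebra.IsAlgebraic K
        (MvPolynomial (Fin N) K ⧸ van U (back Φ α (k * (i + j)))) := by
      refine van_transc fun c => ?_
      have h3 : {n | orb Φ α n = c}.Subsingleton := fun n hn m hm => hinj (hn.trans hm.symm)
      rcases h3.eq_empty_or_singleton with h | ⟨m, h⟩
      · refine Eventually.of_forall fun n hn => ?_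
        have : n - k * (i + j) ∈ {n | orb Φ α n = c} := hn
        rw [h] at this
        exact this
      · filter_upwards [eventually_ge hU (m + k * (i + j) + 1)] with n hn hn'
        have : n - k * (i + j) ∈ {n | orb Φ α n = c} := hn'
        rw [h, Set.mem_singleton_iff] at this
        omega
    rw [← prime_eq hQle h1 h2]
    exact hQ
  have hfin : J.minimalPrimes.Finite := Ideal.finite_minimalPrimes_of_isNoetherianRing _ _
  obtain ⟨l, l', hll, heq⟩ : ∃ l l' : ℕ, l < l' ∧
      van U (back Φ α (k * (l + j))) = van U (back Φ α (k * (l' + j))) := by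
    have : Finite (J.minimalPrimes : Set _) := hfin.to_subtype
    obtain ⟨l, l', hne, h⟩ := Finite.exists_ne_map_eq_of_infinite
      (fun l : ℕ => (⟨van U (back Φ α (k * (l + j))), hmin l⟩ : (J.minimalPrimes : Set _)))
    have h' := congrArg Subtype.val h
    rcases lt_or_gt_of_ne hne with h1 | h1
    · exact ⟨l, l', h1, h'⟩
    · exact ⟨l', l, h1, h'.symm⟩
  refine ⟨k * (l' - l), Nat.mul_pos hk (by omega), fun f hf => ?_⟩
  have h1 := (cmp_iter_mem (Φ := Φ) (α := α) hU (k * (l' + j)) 0 f).2 hf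
  have e1 : k * (l' + j) = k * (l + j) + k * (l' - l) := by
    rw [← Nat.mul_add]
    congr 1
    omega
  rw [zero_add, ← heq, e1, Function.iterate_add_apply] at h1
  have h2 := cmp_iter_mem (Φ := Φ) (α := α) hU (k * (l + j)) 0 ((cmp Φ)^[k * (l' - l)] f)
  rw [zero_add] at h2
  exact h2.1 h1

/-- The return set is a finite union of progressions. -/
theorem main [IsAlgClosure K Ω] (hd : 2 ≤ d) {Φ : Fin N → MvPolynomial (Fin N) K}
    (hΦ : Reg Ω d Φ) (α : Fin N → K) {I : Ideal (MvPolynomial (Fin N) K)}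
    (hI : ∀ P : Ideal (MvPolynomial (Fin N) K), P.IsPrime → I ≤ P →
      Algebra.trdeg K (MvPolynomial (Fin N) K ⧸ P) ≤ 1) (hcrit : MultLt Ω d Φ I) :
    ∃ A : Finset (ℕ × ℕ), {n | ∀ f ∈ I, eval (orb Φ α n) f = 0} =
      ⋃ p ∈ A, {n | ∃ k, n = p.1 + p.2 * k} := by
  classical
  by_cases hinj : Function.Injective (orb Φ α)
  · refine union_of_ultra _ fun U hU hR => ?_
    obtain ⟨m, hm, hinv⟩ := main_inj hd hΦ hinj hI hcrit hU hR
    have hIle : I ≤ van U (back Φ α 0) := fun f hf => by
      rw [mem_van]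
      filter_upwards [hR] with n hn
      exact hn f hf
    -- almost all points are in the curve
    obtain ⟨s, hs⟩ := (isNoetherianRing_iff_ideal_fg _).1 inferInstance (van U (back Φ α 0))
    have hW : ∀ᶠ n in (U : Filter ℕ), ∀ f ∈ van U (back Φ α 0), eval (orb Φ α n) f = 0 := by
      have h1 : ∀ᶠ n in (U : Filter ℕ), ∀ f ∈ s, eval (orb Φ α n) f = 0 := by
        rw [Filter.eventually_all_finset]
        intro f hf
        have : f ∈ van U (back Φ α 0) := by rw [← hs]; exact Ideal.subset_span hf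
        exact this
      filter_upwards [h1] with n hn f hf
      rw [← hs] at hf
      have h2 : Ideal.span (s : Set (MvPolynomial (Fin N) K)) ≤ RingHom.ker (eval (orb Φ α n)) :=
        Ideal.span_le.2 fun f hf => hn f hf
      exact h2 hf
    have hstep : ∀ n, (∀ f ∈ van U (back Φ α 0), eval (orb Φ α n) f = 0) →
        ∀ f ∈ van U (back Φ α 0), eval (orb Φ α (n + m)) f = 0 := by
      intro n hn f hf
      have h1 := hn _ (hinv f hf)
      rw [eval_cmp_iter] at h1
      have h2 : (pmap Φ)^[m] (orb Φ α n) = orb Φ α (n + m) := by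
        unfold orb
        rw [← Function.iterate_add_apply, add_comm]
      rw [h2] at h1
      exact h1
    -- a residue class
    obtain ⟨r, hr⟩ : ∃ r, ∀ᶠ n in (U : Filter ℕ), n % m = r := by
      have h1 : (Set.Iio m) ∈ U.map (fun n => n % m) :=
        Filter.mem_map.2 (Filter.univ_mem' fun n => Nat.mod_lt n hm)
      obtain ⟨r, -, h2⟩ := Ultrafilter.eq_pure_of_finite_mem (Set.finite_Iio m) h1
      have h3 : ({r} : Set ℕ) ∈ U.map (fun n => n % m) := by
        rw [h2]
        exact Ultrafilter.mem_pure.2 rfl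
      exact ⟨r, h3⟩
    obtain ⟨a, haW, har⟩ := (hW.and hr).exists
    have hall : ∀ k, ∀ f ∈ van U (back Φ α 0), eval (orb Φ α (a + m * k)) f = 0 := by
      intro k
      induction k with
      | zero => rw [Nat.mul_zero, Nat.add_zero]; exact haW
      | succ k ih => rw [Nat.mul_succ, ← add_assoc]; exact hstep _ ih
    refine ⟨a, m, hm, fun k f hf => hall k f (hIle hf), ?_⟩
    have h4 : ∀ᶠ n in (U : Filter ℕ), ∃ k, n = a + m * k := by
      filter_upwards [hr, eventually_ge hU a] with n h1 h2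
      refine ⟨(n - a) / m, ?_⟩
      have h3 : m ∣ n - a := (Nat.modEq_iff_dvd' h2).1 (har.trans h1.symm)
      rw [Nat.mul_div_cancel' h3]
      omega
    exact h4
  · -- finite orbits
    have : ∃ n0 m, 0 < m ∧ orb Φ α (n0 + m) = orb Φ α n0 := by
      unfold Function.Injective at hinj
      push Not at hinj
      obtain ⟨a, b, hab, hne⟩ := hinj
      rcases lt_or_gt_of_ne hne with h | h
      · exact ⟨a, b - a, by omega, by rw [Nat.add_sub_cancel' h.le]; exact hab.symm⟩
      · exact ⟨b, a - b, by omega, by rw [Nat.add_sub_cancel' h.le]; exact hab⟩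
    obtain ⟨n0, m, hm, hn0⟩ := this
    have hper : ∀ n, n0 ≤ n → orb Φ α (n + m) = orb Φ α n := by
      intro n hn
      induction n, hn using Nat.le_induction with
      | base => exact hn0
      | succ n hn ih =>
        rw [show n + 1 + m = (n + m) + 1 by ring, orb_succ, ih, ← orb_succ]
    exact union_of_periodic hm hper {x | ∀ f ∈ I, eval x f = 0}

end main

end Pool.Agent.Helper52.RP
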