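import Pool.Agent.Helper52.RP.Col

/-!
# Regular maps and curves, improved: the variable at infinity, the multiplicity of a local ring
-/

set_option autoImplicit false

namespace Pool.Agent.Helper52.RP

open MvPolynomial

section loc

variable {L : Type*} [Field L] {σ : Type*}

instance mI_prime (P : σ → L) : (mI P).IsPrime := RingHom.ker_isPrime _

/-- The dimension of the quotient of the local ring at `P` by the ideal generated by `I`. -/
noncomputable def mult (P : σ → L) (I : Ideal (MvPolynomial σ L)) : Cardinal :=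
  Module.rank L (Localization.AtPrime (mI P) ⧸
    I.map (algebraMap (MvPolynomial σ L) (Localization.AtPrime (mI P))))

theorem isUnit_mk {P : σ → L} {J : Ideal (MvPolynomial σ L)} {s : ℕ} (hJ : mI P ^ s ≤ J)
    {h : MvPolynomial σ L} (hh : h ∉ mI P) : IsUnit (Ideal.Quotient.mk J h) := by
  have h0 : eval P h ≠ 0 := fun h1 => hh (mem_mI.2 h1)
  have e1 : h = C (eval P h) + (h - C (eval P h)) := by ring
  rw [e1, map_add]
  refine IsNilpotent.isUnit_add_left_of_commute ?_ ?_ (Commute.all _ _)
  · refine ⟨s, ?_⟩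
    rw [← map_pow, Ideal.Quotient.eq_zero_iff_mem]
    refine hJ (Ideal.pow_mem_pow ?_ _)
    rw [mem_mI]
    simp
  · exact ((isUnit_iff_ne_zero.2 h0).map (C (σ := σ))).map (Ideal.Quotient.mk J)

theorem rank_le (P : σ → L) (I : Ideal (MvPolynomial σ L)) (s : ℕ) :
    Module.rank L (MvPolynomial σ L ⧸ (I ⊔ mI P ^ s)) ≤ mult P I := by
  let J := I ⊔ mI P ^ s
  have hu : ∀ y : (mI P).primeCompl, IsUnit (Ideal.Quotient.mkₐ L J (y : MvPolynomial σ L)) :=
    fun y => isUnit_mk (le_sup_right : mI P ^ s ≤ J) y.2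
  let ψ : Localization.AtPrime (mI P) →ₐ[L] (MvPolynomial σ L ⧸ J) :=
    IsLocalization.liftAlgHom (M := (mI P).primeCompl) (f := Ideal.Quotient.mkₐ L J) hu
  have hψ : ∀ f : MvPolynomial σ L, ψ (algebraMap _ _ f) = Ideal.Quotient.mk J f := by
    intro f
    exact IsLocalization.lift_eq hu f
  let χ : (Localization.AtPrime (mI P) ⧸
      I.map (algebraMap (MvPolynomial σ L) (Localization.AtPrime (mI P)))) →ₐ[L]
      (MvPolynomial σ L ⧸ J) := Ideal.Quotient.liftₐ _ ψ (by
    intro a ha
    have h1 : I.map (algebraMap (MvPolynomial σ L) (Localization.AtPrime (mI P))) ≤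
        RingHom.ker (ψ : Localization.AtPrime (mI P) →+* (MvPolynomial σ L ⧸ J)) := by
      rw [Ideal.map_le_iff_le_comap]
      intro f hf
      rw [Ideal.mem_comap, RingHom.mem_ker]
      refine (hψ f).trans ?_
      rw [Ideal.Quotient.eq_zero_iff_mem]
      exact Ideal.mem_sup_left hf
    exact h1 ha)
  have hsur : Function.Surjective χ := by
    intro b
    obtain ⟨f, rfl⟩ := Ideal.Quotient.mk_surjective b
    exact ⟨Ideal.Quotient.mk _ (algebraMap _ _ f), hψ f⟩
  exact LinearMap.rank_le_of_surjective χ.toLinearMap hsur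

theorem sp_of_mult {P : σ → L} {I : Ideal (MvPolynomial σ L)} {m : ℕ} (h : mult P I ≤ m) (s : ℕ) :
    Sp (I ⊔ mI P ^ s) m := by
  have h1 : Module.rank L (MvPolynomial σ L ⧸ (I ⊔ mI P ^ s)) ≤ m := (rank_le P I s).trans h
  have h2 : Module.Finite L (MvPolynomial σ L ⧸ (I ⊔ mI P ^ s)) := by
    rw [← Module.rank_lt_aleph0_iff]
    exact h1.trans_lt (Cardinal.natCast_lt_aleph0)
  have h3 : Module.finrank L (MvPolynomial σ L ⧸ (I ⊔ mI P ^ s)) ≤ m := Module.finrank_le_of_rank_le h1
  let b := Module.finBasis L (MvPolynomial σ L ⧸ (I ⊔ mI P ^ s))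
  choose e he using fun a => Ideal.Quotient.mk_surjective (b a)
  refine ⟨_, inferInstance, e, by rw [Fintype.card_fin]; exact h3, fun f => ?_⟩
  refine ⟨fun a => b.repr (Ideal.Quotient.mk _ f) a, ?_⟩
  rw [← Ideal.Quotient.eq_zero_iff_mem, map_sub, map_sum, sub_eq_zero]
  conv_lhs => rw [← b.sum_repr (Ideal.Quotient.mk _ f)]
  refine Finset.sum_congr rfl fun a _ => ?_
  rw [← MvPolynomial.smul_eq_C_mul, ← he]
  exact (map_smul (Ideal.Quotient.mkₐ L (I ⊔ mI P ^ s)) _ (e a)).symm

end loc

section var

variable {L : Type*} [Field L] {N : ℕ}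

/-- The point `(0, q)`. -/
def cone (q : Fin N → L) : Option (Fin N) → L := fun o => o.elim 0 q

/-- Restriction to the hyperplane at infinity. -/
noncomputable def rest : MvPolynomial (Option (Fin N)) L →ₐ[L] MvPolynomial (Fin N) L :=
  aeval (fun o : Option (Fin N) => o.elim 0 X)

/-- Constant extension. -/
noncomputable def inc : MvPolynomial (Fin N) L →ₐ[L] MvPolynomial (Option (Fin N)) L :=
  rename some

theorem rest_none : rest (X none : MvPolynomial (Option (Fin N)) L) = 0 := by
  simp [rest]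

theorem rest_some (i : Fin N) : rest (X (some i) : MvPolynomial (Option (Fin N)) L) = X i := by
  simp [rest]

theorem inc_X (i : Fin N) : inc (X i : MvPolynomial (Fin N) L) = X (some i) := by
  simp [inc]

theorem inc_C (c : L) : inc (C c : MvPolynomial (Fin N) L) = C c := by
  simp [inc]

theorem rest_C (c : L) : rest (C c : MvPolynomial (Option (Fin N)) L) = C c := by
  rw [← MvPolynomial.algebraMap_eq, ← MvPolynomial.algebraMap_eq]
  exact rest.commutes c

theorem sub_inc_rest (f : MvPolynomial (Option (Fin N)) L) :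
    ∃ g, f = inc (rest f) + X none * g := by
  induction f using MvPolynomial.induction_on with
  | C a =>
    refine ⟨0, ?_⟩
    rw [rest_C, inc_C]
    ring
  | add f g hf hg =>
    obtain ⟨u, hu⟩ := hf
    obtain ⟨v, hv⟩ := hg
    refine ⟨u + v, ?_⟩
    rw [map_add, map_add]
    linear_combination hu + hv
  | mul_X f i hf =>
    obtain ⟨u, hu⟩ := hf
    rcases i with _ | i
    · refine ⟨f, ?_⟩
      rw [map_mul, rest_none]
      simp
      ring
    · refine ⟨u * X (some i), ?_⟩
      rw [map_mul, map_mul, rest_some, inc_X]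
      linear_combination X (some i) * hu

theorem eval_inc (q : Fin N → L) (f : MvPolynomial (Fin N) L) :
    eval (cone q) (inc f) = eval q f := by
  unfold inc cone
  rw [eval_rename]
  rfl

/-- powers of the variable at infinity -/
theorem sp_key {q : Fin N → L} {θ : MvPolynomial (Option (Fin N)) L →ₐ[L] MvPolynomial (Option (Fin N)) L}
    {n s : ℕ}
    (hsp : Sp (Ideal.span (Set.range fun i => rest (θ (X (some i))) - C (q i)) ⊔ mI q ^ s) n) (b : ℕ) :
    Sp ((mI (cone q)).map (θ : MvPolynomial (Option (Fin N)) L →+* MvPolynomial (Option (Fin N)) L) ⊔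
      mI (cone q) ^ s ⊔ Ideal.span {X none ^ b}) (b * n) := by
  obtain ⟨ι, hι, e, hc, he⟩ := hsp
  set A := (mI (cone q)).map (θ : MvPolynomial (Option (Fin N)) L →+* MvPolynomial (Option (Fin N)) L) with hA
  set B := mI (cone q) ^ s with hB
  -- the ideal in fewer variables
  have hI : ∀ w ∈ Ideal.span (Set.range fun i => rest (θ (X (some i))) - C (q i)) ⊔ mI q ^ s,
      inc w ∈ A ⊔ B ⊔ Ideal.span {X none} := by
    intro w hw
    have h1 : Ideal.span (Set.range fun i => rest (θ (X (some i))) - C (q i)) ⊔ mI q ^ s ≤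
        (A ⊔ B ⊔ Ideal.span {X none}).comap ((inc : MvPolynomial (Fin N) L →ₐ[L] _) :
          MvPolynomial (Fin N) L →+* MvPolynomial (Option (Fin N)) L) := by
      refine sup_le (Ideal.span_le.2 ?_) ?_
      · rintro _ ⟨i, rfl⟩
        change inc (rest (θ (X (some i))) - C (q i)) ∈ A ⊔ B ⊔ Ideal.span {X none}
        obtain ⟨g, hg⟩ := sub_inc_rest (θ (X (some i)))
        have e1 : inc (rest (θ (X (some i))) - C (q i)) = θ (X (some i) - C (q i)) - X none * g := by
          rw [map_sub, map_sub, inc_C]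
          have : θ (C (q i)) = C (q i) := by
            rw [← MvPolynomial.algebraMap_eq]
            exact θ.commutes _
          rw [this]
          linear_combination -hg
        rw [e1]
        refine Ideal.sub_mem _ (Ideal.mem_sup_left (Ideal.mem_sup_left
          (Ideal.mem_map_of_mem _ ?_))) (Ideal.mem_sup_right ?_)
        · rw [mem_mI]
          simp [cone]
        · exact Ideal.mul_mem_right _ _ (Ideal.mem_span_singleton_self _)
      · have h2 : (mI q ^ s).map ((inc : MvPolynomial (Fin N) L →ₐ[L] _) :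
            MvPolynomial (Fin N) L →+* MvPolynomial (Option (Fin N)) L) ≤ B := by
          rw [Ideal.map_pow, hB]
          refine Ideal.pow_right_mono ?_ s
          rw [Ideal.map_le_iff_le_comap]
          intro f hf
          rw [Ideal.mem_comap, mem_mI]
          exact (eval_inc q f).trans (mem_mI.1 hf)
        exact (Ideal.map_le_iff_le_comap.1 h2).trans
          (Ideal.comap_mono (le_sup_right.trans le_sup_left))
    exact h1 hw
  -- powers of the new variable
  have key : ∀ b : ℕ, ∀ f, ∃ c : Fin b × ι → L, f - ∑ x, C (c x) * (X none ^ (x.1 : ℕ) * inc (e x.2)) ∈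
      A ⊔ B ⊔ Ideal.span {X none ^ b} := by
    intro b
    induction b with
    | zero =>
      intro f
      refine ⟨0, ?_⟩
      rw [pow_zero, Ideal.span_singleton_one, sup_top_eq]
      trivial
    | succ b ih =>
      intro f
      obtain ⟨c, hc⟩ := ih f
      obtain ⟨u, hu, w, hw, huw⟩ := Submodule.mem_sup.1 hc
      obtain ⟨g, hg⟩ := Ideal.mem_span_singleton'.1 hw
      obtain ⟨g', hg'⟩ := sub_inc_rest g
      obtain ⟨c', hc'⟩ := he (rest g)
      have h1 := hI _ hc'
      refine ⟨fun x => if h : (x.1 : ℕ) < b then c (⟨x.1, h⟩, x.2) else c' x.2, ?_⟩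
      have e1 : ∑ x : Fin (b + 1) × ι, C (if h : (x.1 : ℕ) < b then c (⟨x.1, h⟩, x.2) else c' x.2) *
          (X none ^ (x.1 : ℕ) * inc (e x.2)) =
          ∑ x : Fin b × ι, C (c x) * (X none ^ (x.1 : ℕ) * inc (e x.2)) +
            X none ^ b * inc (∑ a, C (c' a) * e a) := by
        rw [Fintype.sum_prod_type, Fin.sum_univ_castSucc, Fintype.sum_prod_type]
        congr 1
        · refine Finset.sum_congr rfl fun x _ => Finset.sum_congr rfl fun a _ => ?_
          simp
        · rw [map_sum, Finset.mul_sum]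
          refine Finset.sum_congr rfl fun a _ => ?_
          simp only [Fin.val_last, lt_irrefl, dif_neg, not_false_eq_true, map_mul, inc_C]
          ring
      have e2 : f - ∑ x : Fin (b + 1) × ι, C (if h : (x.1 : ℕ) < b then c (⟨x.1, h⟩, x.2) else c' x.2) *
          (X none ^ (x.1 : ℕ) * inc (e x.2)) =
          u + X none ^ b * inc (rest g - ∑ a, C (c' a) * e a) + X none ^ (b + 1) * g' := by
        rw [e1, map_sub]
        linear_combination -huw - hg + X none ^ b * hg'
      rw [e2]
      refine Ideal.add_mem _ (Ideal.add_mem _ (Ideal.mem_sup_left hu) ?_)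
        (Ideal.mem_sup_right (Ideal.mul_mem_right _ _ (Ideal.mem_span_singleton_self _)))
      obtain ⟨u', hu', w', hw', huw'⟩ := Submodule.mem_sup.1 h1
      obtain ⟨g'', hg''⟩ := Ideal.mem_span_singleton'.1 hw'
      rw [← huw', ← hg'']
      have e3 : X none ^ b * (u' + g'' * X none) = X none ^ b * u' +
          g'' * (X none : MvPolynomial (Option (Fin N)) L) ^ (b + 1) := by ring
      rw [e3]
      exact Ideal.add_mem _ (Ideal.mem_sup_left (Ideal.mul_mem_left _ _ hu'))
        (Ideal.mem_sup_right (Ideal.mul_mem_left _ _ (Ideal.mem_span_singleton_self _)))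
  refine ⟨Fin b × ι, inferInstance, fun x => X none ^ (x.1 : ℕ) * inc (e x.2), ?_, fun f => ?_⟩
  · rw [Fintype.card_prod, Fintype.card_fin]
    exact Nat.mul_le_mul_left _ hc
  · exact key b f

theorem sp_var {q : Fin N → L} {θ : MvPolynomial (Option (Fin N)) L →ₐ[L] MvPolynomial (Option (Fin N)) L}
    {κ : L} (hκ : κ ≠ 0) {D : ℕ} (h0 : θ (X none) = C κ * X none ^ D) {n s : ℕ}
    (hsp : Sp (Ideal.span (Set.range fun i => rest (θ (X (some i))) - C (q i)) ⊔ mI q ^ s) n) :
    Sp ((mI (cone q)).map (θ : MvPolynomial (Option (Fin N)) L →+* MvPolynomial (Option (Fin N)) L) ⊔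
      mI (cone q) ^ s) (D * n) := by
  refine (sp_key hsp D).mono (sup_le le_rfl ?_) le_rfl
  have h2 : θ (C κ⁻¹ * X none) = X none ^ D := by
    rw [map_mul, h0]
    have : θ (C κ⁻¹) = C κ⁻¹ := by
      rw [← MvPolynomial.algebraMap_eq]
      exact θ.commutes _
    rw [this, ← mul_assoc, ← C_mul, inv_mul_cancel₀ hκ, C_1, one_mul]
  rw [Ideal.span_singleton_le_iff_mem, ← h2]
  refine Ideal.mem_sup_left (Ideal.mem_map_of_mem _ ?_)
  rw [mem_mI]
  simp [cone]

end var

end Pool.Agent.Helper52.RP
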