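import Pool.Agent.Helper52.RP.Dyn

/-!
# Regular maps and curves, improved: the complete backward orbit in the cone
-/

set_option autoImplicit false

namespace Pool.Agent.Helper52.RP

open MvPolynomial Filter Topology

section chain

variable {L : Type*} [Field L] {Ω : Type*} [Field Ω] [Algebra L Ω] {N d k : ℕ}
  {Φ : Fin N → MvPolynomial (Fin N) L} {κ : L} {μ : AbsoluteValue Ω ℝ}
  {U : Ultrafilter ℕ} {P : Option (Fin N) → L}

theorem Cvg.none_lt (hP0 : P none = 0) {z : ℕ → Option (Fin N) → Ω} (h : Cvg μ U P z) :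
    ∀ᶠ n in (U : Filter ℕ), μ (z n none) < 1 := by
  have h1 := h.coord none
  have h2 : ex Ω P none = 0 := by
    unfold ex
    rw [hP0, map_zero]
  rw [h2] at h1
  simp only [sub_zero] at h1
  exact h1.eventually (gt_mem_nhds one_pos)

theorem Rt.mono (hP0 : P none = 0) {z : ℕ → Option (Fin N) → Ω} (hz : Cvg μ U P z)
    (hz0 : ∀ᶠ n in (U : Filter ℕ), z n none ≠ 0) {a a' : ℝ} (h : Rt μ U P z a) (ha : a' ≤ a) :
    Rt μ U P z a' := by
  obtain ⟨C, hC, h⟩ := h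
  refine ⟨C, hC, ?_⟩
  filter_upwards [h, hz.none_lt hP0, hz0] with n h1 h2 h3
  exact h1.trans (mul_le_mul_of_nonneg_left
    (Real.rpow_le_rpow_of_exponent_ge (μ.pos h3) h2.le ha) hC)

theorem chain [IsAlgClosed Ω] (hd : 0 < d) (hdeg : ∀ i, (Φ i).totalDegree ≤ d) (hκ : κ ≠ 0)
    (hP0 : P none = 0) (hP : psi d Φ k κ (ex Ω P) = ex Ω P) {i0 : Fin N} (hi0 : P (some i0) = 1)
    {m : ℕ} (hm : 0 < m) (hmD : m ≤ d ^ k)
    (hnil : ∀ f ∈ mI P, f ^ m ∈ (mI P).map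
      (th d Φ k κ : MvPolynomial (Option (Fin N)) L →+* MvPolynomial (Option (Fin N)) L) ⊔
        mI P ^ (m + 1) ⊔ Ideal.span {X none})
    {x : ℕ → ℕ → Fin N → Ω}
    (hx : ∀ i, ∀ᶠ n in (U : Filter ℕ),
      x i n = (fun (x : Fin N → Ω) i => aeval x (Φ i))^[k] (x (i + 1) n))
    (hx0 : ∀ i, ∀ᶠ n in (U : Filter ℕ), x i n i0 ≠ 0)
    (hw : ∀ i, Cvg μ U P fun n => pt (x i n i0)⁻¹ (x i n)) {a0 : ℝ} (ha0 : 0 < a0)
    (hr : Rt μ U P (fun n => pt (x 0 n i0)⁻¹ (x 0 n)) a0) :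
    ∃ τ : ℕ → ℕ → Ω, ∃ a : ℝ, 0 < a ∧ ∀ i, (∀ᶠ n in (U : Filter ℕ), τ i n ≠ 0) ∧
      (Cvg μ U P fun n => pt (τ i n) (x i n)) ∧ Rt μ U P (fun n => pt (τ i n) (x i n)) a ∧
      ∀ᶠ n in (U : Filter ℕ), psi d Φ k κ (pt (τ (i + 1) n) (x (i + 1) n)) =
        pt (τ i n) (x i n) := by
  have hm' : (0 : ℝ) < m := by exact_mod_cast hm
  set a : ℝ := min a0 (1 / m) with ha
  have hap : 0 < a := lt_min ha0 (by positivity)
  have hstep : a ≤ min ((d : ℝ) ^ k * a) 1 / m := by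
    rw [le_div_iff₀ hm']
    refine le_min ?_ ?_
    · rw [mul_comm]
      refine mul_le_mul_of_nonneg_right ?_ hap.le
      exact_mod_cast hmD
    · have : a ≤ 1 / m := min_le_right _ _
      rwa [le_div_iff₀ hm'] at this
  let Gd : ℕ → (ℕ → Ω) → Prop := fun i τ => (∀ᶠ n in (U : Filter ℕ), τ n ≠ 0) ∧
    (Cvg μ U P fun n => pt (τ n) (x i n)) ∧ Rt μ U P (fun n => pt (τ n) (x i n)) a
  have hnext : ∀ i (τ : {τ : ℕ → Ω // Gd i τ}), ∃ τ' : {τ : ℕ → Ω // Gd (i + 1) τ},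
      ∀ᶠ n in (U : Filter ℕ), psi d Φ k κ (pt (τ'.1 n) (x (i + 1) n)) = pt (τ.1 n) (x i n) := by
    rintro i ⟨τ, h1, h2, h3⟩
    obtain ⟨τ', h4, h5, h6⟩ := lift_step hd hdeg hκ hP hi0 h1 (by
      filter_upwards [hx0 (i + 1)] with n hn
      exact inv_ne_zero hn) (hx i) h2 (hw (i + 1))
    refine ⟨⟨τ', h4, h5, ?_⟩, h6⟩
    exact (rate_step hP0 hm hκ hnil h2 h5 h4 h6 h3).mono hP0 h5 h4 hstep
  choose nxt hnxt using hnext
  have hbase : Gd 0 fun n => (x 0 n i0)⁻¹ := by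
    have h1 : ∀ᶠ n in (U : Filter ℕ), (x 0 n i0)⁻¹ ≠ 0 := by
      filter_upwards [hx0 0] with n hn
      exact inv_ne_zero hn
    exact ⟨h1, hw 0, hr.mono hP0 (hw 0) h1 (min_le_left _ _)⟩
  let seq : (i : ℕ) → {τ : ℕ → Ω // Gd i τ} := fun i =>
    Nat.rec (motive := fun i => {τ : ℕ → Ω // Gd i τ}) ⟨_, hbase⟩ (fun i τ => nxt i τ) i
  refine ⟨fun i => (seq i).1, a, hap, fun i => ⟨(seq i).2.1, (seq i).2.2.1, (seq i).2.2.2, ?_⟩⟩
  exact hnxt i (seq i)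

/-- the values of the polynomials in the iterated inverse images -/
theorem val_final (hP0 : P none = 0) (hκ : κ ≠ 0) {z : ℕ → ℕ → Option (Fin N) → Ω} {a : ℝ}
    (hz0 : ∀ i, ∀ᶠ n in (U : Filter ℕ), z i n none ≠ 0) (hz : ∀ i, Cvg μ U P (z i))
    (hr : ∀ i, Rt μ U P (z i) a)
    (hpsi : ∀ i, ∀ᶠ n in (U : Filter ℕ), psi d Φ k κ (z (i + 1) n) = z i n) (i j s T : ℕ)
    (hT1 : (T : ℝ) ≤ a * (d ^ k) ^ j) (hT2 : (T : ℝ) ≤ a * s)
    {f : MvPolynomial (Option (Fin N)) L} (hf : f ∈ itI P (th d Φ k κ) j ⊔ mI P ^ s) :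
    ∃ C : ℝ, 0 ≤ C ∧ ∀ᶠ n in (U : Filter ℕ), μ (aeval (z (i + j) n) f) ≤
      C * μ (z (i + j) n none) ^ T := by
  obtain ⟨g, hg, h, hh, e1⟩ := Submodule.mem_sup.1 hf
  have hΨ : ∀ (z : Option (Fin N) → Ω) f, aeval z (th d Φ k κ f) = aeval (psi d Φ k κ z) f :=
    fun z f => aeval_th Φ k κ z f
  obtain ⟨C1, hC1, h1⟩ := val_it (Ω := Ω) μ (bd_P (μ := μ) P) hΨ j hg
  obtain ⟨C2, hC2, h2⟩ := val_pow (Ω := Ω) μ (bd_P (μ := μ) P) s hh
  have hκ' : 0 < μ (algebraMap L Ω κ⁻¹) := by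
    refine μ.pos ?_
    rw [Ne, map_eq_zero]
    exact inv_ne_zero hκ
  -- iterates
  have hit : ∀ j', ∀ᶠ n in (U : Filter ℕ), ∀ r ≤ j', (psi d Φ k κ)^[r] (z (i + j') n) =
      z (i + j' - r) n := by
    intro j'
    induction j' with
    | zero =>
      refine Eventually.of_forall fun n r hr => ?_
      obtain rfl : r = 0 := by omega
      rfl
    | succ j' ih =>
      filter_upwards [ih, hpsi (i + j')] with n h3 h4 r hr
      rcases Nat.eq_zero_or_pos r with rfl | hr0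
      · rfl
      · obtain ⟨r, rfl⟩ : ∃ r', r = r' + 1 := ⟨r - 1, by omega⟩
        rw [Function.iterate_succ_apply, show i + (j' + 1) = i + j' + 1 by ring, h4, h3 r (by omega)]
        congr 1
        omega
  -- sizes of the coordinate at infinity
  have hsz : ∀ j', ∃ c : ℝ, 0 < c ∧ ∀ᶠ n in (U : Filter ℕ),
      μ (z i n none) = c * μ (z (i + j') n none) ^ (d ^ k) ^ j' := by
    intro j'
    induction j' with
    | zero => exact ⟨1, one_pos, Eventually.of_forall fun n => by simp⟩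
    | succ j' ih =>
      obtain ⟨c, hc, h3⟩ := ih
      refine ⟨c * μ (algebraMap L Ω κ⁻¹) ^ (d ^ k) ^ j', by positivity, ?_⟩
      filter_upwards [h3, hpsi (i + j')] with n h4 h5
      have h6 : μ (z (i + j') n none) = μ (algebraMap L Ω κ⁻¹) * μ (z (i + (j' + 1)) n none) ^ d ^ k := by
        rw [← h5]
        unfold psi
        rw [hat_iter_none, map_mul, map_pow]
        rfl
      have h7 : (μ (z (i + (j' + 1)) n none) ^ d ^ k) ^ (d ^ k) ^ j' =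
          μ (z (i + (j' + 1)) n none) ^ (d ^ k) ^ (j' + 1) := by
        rw [← pow_mul (μ (z (i + (j' + 1)) n none)), ← pow_succ' (d ^ k)]
      rw [h4, h6, mul_pow, h7, mul_assoc]
  obtain ⟨c, hc, hcz⟩ := hsz j
  have hbd : ∀ᶠ n in (U : Filter ℕ), ∀ r ≤ j, ∀ o, μ (z (i + j - r) n o) ≤ bd μ P := by
    have h3 : ∀ᶠ n in (U : Filter ℕ), ∀ r ∈ Finset.range (j + 1), ∀ o,
        μ (z (i + j - r) n o) ≤ bd μ P := by
      rw [Filter.eventually_all_finset]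
      exact fun r _ => (hz _).bdd
    filter_upwards [h3] with n hn r hr
    exact hn r (Finset.mem_range.2 (by omega))
  obtain ⟨C3, hC3, h3⟩ := hr i
  obtain ⟨C4, hC4, h4⟩ := hr (i + j)
  have hca : 0 ≤ c ^ a := Real.rpow_nonneg hc.le a
  refine ⟨C1 * (C3 * c ^ a) + C2 * C4 ^ s, by positivity, ?_⟩
  filter_upwards [hit j, hcz, hbd, h3, h4, (hz (i + j)).none_lt hP0, hz0 (i + j)] with
    n e2 e3 e4 e5 e6 e7 e8
  have ht0 : 0 < μ (z (i + j) n none) := μ.pos e8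
  set t := μ (z (i + j) n none) with ht
  rw [← e1, map_add (aeval (z (i + j) n))]
  refine (μ.add_le _ _).trans ?_
  rw [add_mul]
  refine add_le_add ?_ ?_
  · have h5 := h1 (z (i + j) n) (by
      intro r hr o
      rw [e2 r hr]
      exact e4 r hr o)
    rw [e2 j le_rfl, show i + j - j = i by omega] at h5
    refine h5.trans ?_
    rw [mul_assoc C1, mul_assoc C3]
    refine mul_le_mul_of_nonneg_left (e5.trans (mul_le_mul_of_nonneg_left ?_ hC3)) hC1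
    rw [e3, Real.mul_rpow hc.le (by positivity)]
    refine mul_le_mul_of_nonneg_left ?_ hca
    rw [← Real.rpow_natCast t T, ← Real.rpow_natCast t, ← Real.rpow_mul ht0.le]
    refine Real.rpow_le_rpow_of_exponent_ge ht0 e7.le ?_
    push_cast
    linarith
  · have h5 := h2 (z (i + j) n) (e4 0 (by omega))
    refine h5.trans ?_
    rw [mul_assoc]
    refine mul_le_mul_of_nonneg_left ?_ hC2
    refine (pow_le_pow_left₀ (dst_nonneg _ _ _) e6 s).trans ?_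
    rw [mul_pow]
    refine mul_le_mul_of_nonneg_left ?_ (by positivity)
    rw [← Real.rpow_natCast, ← Real.rpow_natCast, ← Real.rpow_mul ht0.le]
    refine Real.rpow_le_rpow_of_exponent_ge ht0 e7.le ?_
    exact hT2

end chain

end Pool.Agent.Helper52.RP
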