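import Pool.Agent.Helper26.RC.Defs

/-! Few linear conditions, so the zero set is small (the argument of `RC/Codim.lean` for an arbitrary
linear map). -/

set_option autoImplicit false

namespace Pool.Agent.Helper52.RP

open MvPolynomial Filter Topology

section Aux

variable {K : Type*} [Field K] {N : ℕ}

private theorem ce_aeval_mk {n : ℕ} (Q : Ideal (MvPolynomial (Fin N) K)) (v : Fin n → MvPolynomial (Fin N) K)
    (p : MvPolynomial (Fin n) K) :
    aeval (fun i => Ideal.Quotient.mk Q (v i)) p = Ideal.Quotient.mk Q (aeval v p) := by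
  have h := MvPolynomial.comp_aeval v (Ideal.Quotient.mkₐ K Q)
  have h2 := congrArg (fun φ : MvPolynomial (Fin n) K →ₐ[K] (MvPolynomial (Fin N) K ⧸ Q) => φ p) h
  exact h2.symm

private theorem ce_paeval_mk (Q : Ideal (MvPolynomial (Fin N) K)) (v : MvPolynomial (Fin N) K)
    (p : Polynomial K) :
    Polynomial.aeval (Ideal.Quotient.mk Q v) p = Ideal.Quotient.mk Q (Polynomial.aeval v p) :=
  Polynomial.aeval_algHom_apply (Ideal.Quotient.mkₐ K Q) v p

private theorem ce_alg_of_X (P : Ideal (MvPolynomial (Fin N) K)) [P.IsPrime]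
    (h : ∀ i, IsAlgebraic K (Ideal.Quotient.mk P (X i))) :
    Algebra.IsAlgebraic K (MvPolynomial (Fin N) K ⧸ P) := by
  constructor
  intro b
  obtain ⟨p, rfl⟩ := Ideal.Quotient.mk_surjective b
  rw [isAlgebraic_iff_isIntegral]
  induction p using MvPolynomial.induction_on with
  | C a => exact isIntegral_algebraMap (R := K) (A := MvPolynomial (Fin N) K ⧸ P) (x := a)
  | add p q hp hq =>
    rw [map_add]
    exact hp.add hq
  | mul_X p i hp =>
    rw [map_mul]
    exact hp.mul (isAlgebraic_iff_isIntegral.1 (h i))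

/-- the index set of the monomials of degree at most `δ` in two variables -/
private abbrev CeI (δ : ℕ) : Type := (e : Fin (δ + 1)) × Fin (e.1 + 1)

private theorem ce_card (δ : ℕ) : Fintype.card (CeI δ) = (δ + 2).choose 2 := by
  rw [Fintype.card_sigma]
  simp only [Fintype.card_fin]
  rw [Fin.sum_univ_eq_sum_range (fun e => e + 1) (δ + 1)]
  induction δ with
  | zero => rfl
  | succ δ ih =>
    rw [Finset.sum_range_succ, ih, Nat.choose_succ_succ (δ + 2) 1, Nat.choose_one_right, add_comm]

private noncomputable def ceMon {n : ℕ} (i j : Fin n) {δ : ℕ} (z : CeI δ) : MvPolynomial (Fin n) K :=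
  X i ^ (z.2 : ℕ) * X j ^ ((z.1 : ℕ) - z.2)

private theorem ce_linInd (δ : ℕ) :
    LinearIndependent K (fun z : CeI δ => (ceMon 0 1 z : MvPolynomial (Fin 2) K)) := by
  have h1 := (MvPolynomial.basisMonomials (Fin 2) K).linearIndependent
  have h2 : Function.Injective (fun z : CeI δ =>
      (Finsupp.single (0 : Fin 2) (z.2 : ℕ) + Finsupp.single (1 : Fin 2) ((z.1 : ℕ) - z.2) :
        Fin 2 →₀ ℕ)) := by
    rintro ⟨e, a⟩ ⟨e', a'⟩ h
    have h0 := DFunLike.congr_fun h 0
    have h1 := DFunLike.congr_fun h 1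
    simp only [Finsupp.add_apply, Finsupp.single_apply] at h0 h1
    simp at h0 h1
    have hea : (e : ℕ) = e' := by
      have := a.2
      have := a'.2
      omega
    have he : e = e' := Fin.ext hea
    subst he
    have ha : a = a' := Fin.ext h0
    rw [ha]
  have h3 := h1.comp _ h2
  have e : (fun z : CeI δ => (ceMon 0 1 z : MvPolynomial (Fin 2) K)) =
      (MvPolynomial.basisMonomials (Fin 2) K) ∘ (fun z : CeI δ =>
      (Finsupp.single (0 : Fin 2) (z.2 : ℕ) + Finsupp.single (1 : Fin 2) ((z.1 : ℕ) - z.2) :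
        Fin 2 →₀ ℕ)) := by
    funext z
    unfold ceMon
    rw [Function.comp_apply, MvPolynomial.coe_basisMonomials, X_pow_eq_monomial, X_pow_eq_monomial,
      monomial_mul, one_mul]
  rw [e]
  exact h3

private theorem ce_deg {n : ℕ} (i j : Fin n) {δ : ℕ} (c : CeI δ → K) :
    (Fintype.linearCombination K (fun z => (ceMon i j z : MvPolynomial (Fin n) K)) c).totalDegree ≤ δ := by
  rw [← mem_restrictTotalDegree, Fintype.linearCombination_apply]
  refine Submodule.sum_mem _ fun z _ => Submodule.smul_mem _ _ ?_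
  rw [mem_restrictTotalDegree]
  unfold ceMon
  refine (totalDegree_mul _ _).trans ?_
  refine (add_le_add (totalDegree_pow _ _) (totalDegree_pow _ _)).trans ?_
  rw [totalDegree_X, totalDegree_X, mul_one, mul_one]
  have h1 := z.2.2
  have h2 := z.1.2
  omega

end Aux

variable {K : Type*} [Field K] {N : ℕ}

theorem trdeg_of_map {W : Type*} [AddCommGroup W] [Module K W] [Module.Finite K W]
    (Λ : MvPolynomial (Fin N) K →ₗ[K] W) {δ : ℕ} (h : Module.finrank K W < (δ + 2).choose 2)
    (Q : Ideal (MvPolynomial (Fin N) K)) [Q.IsPrime]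
    (hQ : ∀ p : MvPolynomial (Fin N) K, p.totalDegree ≤ δ → Λ p = 0 → p ∈ Q) :
    Algebra.trdeg K (MvPolynomial (Fin N) K ⧸ Q) ≤ 1 := by
  by_contra hcon
  push Not at hcon
  -- two independent generators
  set s : Set (MvPolynomial (Fin N) K ⧸ Q) := Set.range fun i => Ideal.Quotient.mk Q (X i) with hs
  have htop : Algebra.adjoin K s = ⊤ := by
    have h1 : s = (Ideal.Quotient.mkₐ K Q) '' (Set.range (X : Fin N → MvPolynomial (Fin N) K)) := by
      rw [← Set.range_comp]
      rfl
    rw [h1, ← AlgHom.map_adjoin, adjoin_range_X, Algebra.map_top, AlgHom.range_eq_top]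
    exact Ideal.Quotient.mk_surjective
  have halg : Algebra.IsAlgebraic (Algebra.adjoin K s) (MvPolynomial (Fin N) K ⧸ Q) := by
    have hsur : Function.Surjective (algebraMap (Algebra.adjoin K s) (MvPolynomial (Fin N) K ⧸ Q)) := by
      intro b
      exact ⟨⟨b, by rw [htop]; trivial⟩, rfl⟩
    constructor
    intro b
    obtain ⟨y, rfl⟩ := hsur b
    exact isAlgebraic_algebraMap y
  obtain ⟨t, hts, ht⟩ := exists_isTranscendenceBasis_subset (R := K) s
  have hnt : Nontrivial t := by
    rw [← Cardinal.one_lt_iff_nontrivial, ht.cardinalMk_eq_trdeg]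
    exact hcon
  obtain ⟨u, v, huv⟩ := hnt.exists_pair_ne
  obtain ⟨i, hi⟩ := hts u.2
  obtain ⟨j, hj⟩ := hts v.2
  have hind : AlgebraicIndependent K (fun k : Fin 2 => Ideal.Quotient.mk Q ((![X i, X j] :
      Fin 2 → MvPolynomial (Fin N) K) k)) := by
    have h1 := ht.1.comp (![u, v] : Fin 2 → t) (by
      intro a b hab
      fin_cases a <;> fin_cases b <;> simp_all)
    convert h1 using 1
    funext k
    fin_cases k
    · exact hi
    · exact hj
  set G : (CeI δ → K) →ₗ[K] MvPolynomial (Fin N) K :=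
    Fintype.linearCombination K (fun z => (ceMon i j z : MvPolynomial (Fin N) K)) with hG
  set Lm : (CeI δ → K) →ₗ[K] W := Λ ∘ₗ G with hLm
  have hker : LinearMap.ker Lm ≠ ⊥ := by
    refine LinearMap.ker_ne_bot_of_finrank_lt ?_
    rw [Module.finrank_fintype_fun_eq_card, ce_card]
    exact h
  obtain ⟨c, hc, hc0⟩ := Submodule.exists_mem_ne_zero_of_ne_bot hker
  rw [LinearMap.mem_ker] at hc
  have hmem : G c ∈ Q := hQ _ (ce_deg i j c) hc
  have hG2 : G c = aeval (![X i, X j] : Fin 2 → MvPolynomial (Fin N) K)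
      (Fintype.linearCombination K (fun z => (ceMon 0 1 z : MvPolynomial (Fin 2) K)) c) := by
    rw [hG, Fintype.linearCombination_apply, Fintype.linearCombination_apply, map_sum]
    refine Finset.sum_congr rfl fun z _ => ?_
    rw [map_smul]
    unfold ceMon
    rw [map_mul, map_pow, map_pow, aeval_X, aeval_X]
    rfl
  have hzero : Fintype.linearCombination K (fun z => (ceMon 0 1 z : MvPolynomial (Fin 2) K)) c = 0 := by
    refine hind.eq_zero_of_aeval_eq_zero _ ?_
    rw [ce_aeval_mk, ← hG2, Ideal.Quotient.eq_zero_iff_mem]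
    exact hmem
  rw [Fintype.linearCombination_apply] at hzero
  exact hc0 (funext fun z => (Fintype.linearIndependent_iff.1 (ce_linInd δ)) c hzero z)

end Pool.Agent.Helper52.RP
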