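import Mathlib

/-!
# Regular maps and curves, improved: colengths modulo high powers of the maximal ideal

`Sp J n`: the ring of polynomials is spanned by `n` elements modulo the ideal `J`.
-/

set_option autoImplicit false

namespace Pool.Agent.Helper52.RP

open MvPolynomial

section basic

variable {L : Type*} [Field L] {σ : Type*}

/-- The ideal of the point `P`. -/
noncomputable def mI (P : σ → L) : Ideal (MvPolynomial σ L) := RingHom.ker (eval P)

theorem mem_mI {P : σ → L} {f : MvPolynomial σ L} : f ∈ mI P ↔ eval P f = 0 := RingHom.mem_ker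

/-- The polynomials are spanned by at most `n` elements modulo `J`. -/
def Sp (J : Ideal (MvPolynomial σ L)) (n : ℕ) : Prop :=
  ∃ (ι : Type) (_ : Fintype ι) (e : ι → MvPolynomial σ L), Fintype.card ι ≤ n ∧
    ∀ f, ∃ c : ι → L, f - ∑ a, C (c a) * e a ∈ J

theorem Sp.mono {J J' : Ideal (MvPolynomial σ L)} {n n' : ℕ} (h : Sp J n) (hJ : J ≤ J')
    (hn : n ≤ n') : Sp J' n' := by
  obtain ⟨ι, hι, e, hc, he⟩ := h
  refine ⟨ι, hι, e, hc.trans hn, fun f => ?_⟩
  obtain ⟨c, hc⟩ := he f
  exact ⟨c, hJ hc⟩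

theorem sp_one (P : σ → L) : Sp (mI P) 1 := by
  refine ⟨Unit, inferInstance, fun _ => 1, by simp, fun f => ⟨fun _ => eval P f, ?_⟩⟩
  rw [mem_mI]
  simp

/-- first step of the composition: expansion over the subring -/
theorem expand {P : σ → L} {θ : MvPolynomial σ L →ₐ[L] MvPolynomial σ L}
    {ι : Type} [Fintype ι] {e : ι → MvPolynomial σ L} {s : ℕ}
    (he : ∀ f, ∃ c : ι → L, f - ∑ a, C (c a) * e a ∈ (mI P).map (θ : MvPolynomial σ L →+* MvPolynomial σ L) ⊔ mI P ^ s)
    (t : ℕ) (f : MvPolynomial σ L) :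
    ∃ c : ι → MvPolynomial σ L, f - ∑ a, e a * θ (c a) ∈
      (mI P ^ t).map (θ : MvPolynomial σ L →+* MvPolynomial σ L) ⊔ mI P ^ s := by
  induction t generalizing f with
  | zero =>
    refine ⟨0, ?_⟩
    rw [pow_zero, Ideal.one_eq_top, Ideal.map_top, top_sup_eq]
    trivial
  | succ t ih =>
    have key : ∀ u ∈ (mI P ^ t).map (θ : MvPolynomial σ L →+* MvPolynomial σ L),
        ∃ c : ι → MvPolynomial σ L, (∀ a, c a ∈ mI P ^ t) ∧ u - ∑ a, e a * θ (c a) ∈
          (mI P ^ (t + 1)).map (θ : MvPolynomial σ L →+* MvPolynomial σ L) ⊔ mI P ^ s := by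
      -- multiples of one element
      have hmul : ∀ (r μ : MvPolynomial σ L), μ ∈ mI P ^ t →
          ∃ c : ι → MvPolynomial σ L, (∀ a, c a ∈ mI P ^ t) ∧ r * θ μ - ∑ a, e a * θ (c a) ∈
            (mI P ^ (t + 1)).map (θ : MvPolynomial σ L →+* MvPolynomial σ L) ⊔ mI P ^ s := by
        intro r μ hμ
        obtain ⟨c, hc⟩ := he r
        refine ⟨fun a => C (c a) * μ, fun a => Ideal.mul_mem_left _ _ hμ, ?_⟩
        have e1 : r * θ μ - ∑ a, e a * θ (C (c a) * μ) = (r - ∑ a, C (c a) * e a) * θ μ := by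
          rw [sub_mul, Finset.sum_mul]
          congr 1
          refine Finset.sum_congr rfl fun a _ => ?_
          rw [map_mul]
          have : θ (C (c a)) = C (c a) := by
            rw [← MvPolynomial.algebraMap_eq]
            exact θ.commutes _
          rw [this]
          ring
        rw [e1]
        obtain ⟨x, hx, y, hy, hxy⟩ := Submodule.mem_sup.1 hc
        rw [← hxy, add_mul]
        refine Ideal.add_mem _ (Ideal.mem_sup_left ?_)
          (Ideal.mem_sup_right (Ideal.mul_mem_right _ _ hy))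
        rw [pow_succ', Ideal.map_mul]
        exact Ideal.mul_mem_mul hx (Ideal.mem_map_of_mem _ hμ)
      intro u hu
      rw [Ideal.map] at hu
      refine Submodule.span_induction (p := fun u _ => ∃ c : ι → MvPolynomial σ L,
        (∀ a, c a ∈ mI P ^ t) ∧ u - ∑ a, e a * θ (c a) ∈
          (mI P ^ (t + 1)).map (θ : MvPolynomial σ L →+* MvPolynomial σ L) ⊔ mI P ^ s)
        ?_ ?_ ?_ ?_ hu
      · rintro _ ⟨μ, hμ, rfl⟩
        obtain ⟨c, hc, h⟩ := hmul 1 μ hμ
        rw [one_mul] at h
        exact ⟨c, hc, h⟩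
      · exact ⟨0, fun a => zero_mem _, by simp⟩
      · rintro x y - - ⟨c, hc, h⟩ ⟨c', hc', h'⟩
        refine ⟨c + c', fun a => add_mem (hc a) (hc' a), ?_⟩
        have e1 : x + y - ∑ a, e a * θ ((c + c') a) =
            (x - ∑ a, e a * θ (c a)) + (y - ∑ a, e a * θ (c' a)) := by
          simp only [Pi.add_apply, map_add, mul_add, Finset.sum_add_distrib]
          ring
        rw [e1]
        exact Ideal.add_mem _ h h'
      · rintro r x - ⟨c, hc, h⟩
        choose c' hc' h' using fun a => hmul (r * e a) (c a) (hc a)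
        refine ⟨fun b => ∑ a, c' a b, fun b => Ideal.sum_mem _ fun a _ => hc' a b, ?_⟩
        have e1 : r • x - ∑ b, e b * θ (∑ a, c' a b) =
            r * (x - ∑ a, e a * θ (c a)) +
              ∑ a, (r * e a * θ (c a) - ∑ b, e b * θ (c' a b)) := by
          rw [smul_eq_mul, mul_sub, Finset.mul_sum, Finset.sum_sub_distrib, Finset.sum_comm]
          simp only [map_sum, Finset.mul_sum, mul_assoc]
          ring
        rw [e1]
        exact Ideal.add_mem _ (Ideal.mul_mem_left _ _ h) (Ideal.sum_mem _ fun a _ => h' a)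
    obtain ⟨c, hc⟩ := ih f
    obtain ⟨x, hx, y, hy, hxy⟩ := Submodule.mem_sup.1 hc
    obtain ⟨c', -, h'⟩ := key x hx
    refine ⟨c + c', ?_⟩
    have e1 : f - ∑ a, e a * θ ((c + c') a) = (x - ∑ a, e a * θ (c' a)) + y := by
      simp only [Pi.add_apply, map_add, mul_add, Finset.sum_add_distrib]
      linear_combination -hxy
    rw [e1]
    exact Ideal.add_mem _ h' (Ideal.mem_sup_right hy)

/-- composition -/
theorem Sp.comp {P : σ → L} {θ : MvPolynomial σ L →ₐ[L] MvPolynomial σ L}
    (hθ : ∀ f, eval P (θ f) = eval P f) {s n n' : ℕ} {I : Ideal (MvPolynomial σ L)}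
    (h : Sp ((mI P).map (θ : MvPolynomial σ L →+* MvPolynomial σ L) ⊔ mI P ^ s) n)
    (h' : Sp (I ⊔ mI P ^ s) n') :
    Sp (I.map (θ : MvPolynomial σ L →+* MvPolynomial σ L) ⊔ mI P ^ s) (n * n') := by
  have hle : (mI P).map (θ : MvPolynomial σ L →+* MvPolynomial σ L) ≤ mI P := by
    rw [Ideal.map_le_iff_le_comap]
    intro f hf
    rw [Ideal.mem_comap, mem_mI]
    exact (hθ f).trans (mem_mI.1 hf)
  have hpow : (mI P ^ s).map (θ : MvPolynomial σ L →+* MvPolynomial σ L) ≤ mI P ^ s := by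
    rw [Ideal.map_pow]
    exact Ideal.pow_right_mono hle s
  obtain ⟨ι, hι, e, hc, he⟩ := h
  obtain ⟨κ, hκ, g, hc', hg⟩ := h'
  refine ⟨ι × κ, inferInstance, fun ab => e ab.1 * θ (g ab.2), ?_, fun f => ?_⟩
  · rw [Fintype.card_prod]
    exact Nat.mul_le_mul hc hc'
  · obtain ⟨c, hcc⟩ := expand he s f
    choose b hb using fun a => hg (c a)
    refine ⟨fun ab => b ab.1 ab.2, ?_⟩
    have e1 : f - ∑ ab : ι × κ, C (b ab.1 ab.2) * (e ab.1 * θ (g ab.2)) =
        (f - ∑ a, e a * θ (c a)) + ∑ a, e a * θ (c a - ∑ k, C (b a k) * g k) := by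
      rw [Fintype.sum_prod_type]
      have : ∀ a, e a * θ (c a - ∑ k, C (b a k) * g k) =
          e a * θ (c a) - ∑ k, C (b a k) * (e a * θ (g k)) := by
        intro a
        rw [map_sub, mul_sub, map_sum, Finset.mul_sum]
        congr 1
        refine Finset.sum_congr rfl fun k _ => ?_
        rw [map_mul]
        have : θ (C (b a k)) = C (b a k) := by
          rw [← MvPolynomial.algebraMap_eq]
          exact θ.commutes _
        rw [this]
        ring
      simp only [this, Finset.sum_sub_distrib]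
      ring
    rw [e1]
    refine Ideal.add_mem _ (sup_le (hpow.trans le_sup_right) le_sup_right hcc)
      (Ideal.sum_mem _ fun a _ => Ideal.mul_mem_left _ _ ?_)
    obtain ⟨x, hx, y, hy, hxy⟩ := Submodule.mem_sup.1 (hb a)
    rw [← hxy, map_add]
    exact Ideal.add_mem _ (Ideal.mem_sup_left (Ideal.mem_map_of_mem _ hx))
      (Ideal.mem_sup_right (hpow (Ideal.mem_map_of_mem _ hy)))

/-- the iterated inverse images of the ideal of the point -/
noncomputable def itI (P : σ → L) (θ : MvPolynomial σ L →ₐ[L] MvPolynomial σ L) (j : ℕ) :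
    Ideal (MvPolynomial σ L) :=
  (fun I : Ideal (MvPolynomial σ L) => I.map (θ : MvPolynomial σ L →+* MvPolynomial σ L))^[j] (mI P)

theorem itI_succ (P : σ → L) (θ : MvPolynomial σ L →ₐ[L] MvPolynomial σ L) (j : ℕ) :
    itI P θ (j + 1) = (itI P θ j).map (θ : MvPolynomial σ L →+* MvPolynomial σ L) := by
  unfold itI
  rw [Function.iterate_succ_apply']

theorem sp_iter {P : σ → L} {θ : MvPolynomial σ L →ₐ[L] MvPolynomial σ L}
    (hθ : ∀ f, eval P (θ f) = eval P f) {s n : ℕ}
    (h : Sp ((mI P).map (θ : MvPolynomial σ L →+* MvPolynomial σ L) ⊔ mI P ^ s) n) (j : ℕ) :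
    Sp (itI P θ j ⊔ mI P ^ s) (n ^ j) := by
  induction j with
  | zero =>
    rw [pow_zero]
    exact (sp_one P).mono le_sup_left le_rfl
  | succ j ih =>
    rw [itI_succ, pow_succ']
    exact Sp.comp hθ h ih

/-- the quotient is finite dimensional -/
theorem Sp.finite {J : Ideal (MvPolynomial σ L)} {n : ℕ} (h : Sp J n) :
    Module.Finite L (MvPolynomial σ L ⧸ J) ∧ Module.finrank L (MvPolynomial σ L ⧸ J) ≤ n := by
  obtain ⟨ι, hι, e, hc, he⟩ := h
  let g : (ι → L) →ₗ[L] (MvPolynomial σ L ⧸ J) :=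
    Fintype.linearCombination L (fun a => Ideal.Quotient.mk J (e a))
  have hg : Function.Surjective g := by
    intro x
    obtain ⟨f, rfl⟩ := Ideal.Quotient.mk_surjective x
    obtain ⟨c, hc⟩ := he f
    refine ⟨c, ?_⟩
    have h1 := Ideal.Quotient.eq_zero_iff_mem.2 hc
    rw [map_sub, sub_eq_zero] at h1
    rw [h1]
    simp only [g, Fintype.linearCombination_apply, map_sum]
    refine Finset.sum_congr rfl fun a _ => ?_
    rw [← MvPolynomial.smul_eq_C_mul]
    exact (map_smul (Ideal.Quotient.mkₐ L J) (c a) (e a)).symm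
  refine ⟨Module.Finite.of_surjective g hg, ?_⟩
  have h1 := LinearMap.finrank_le_finrank_of_surjective hg
  rw [Module.finrank_fintype_fun_eq_card] at h1
  exact h1.trans hc

/-- elements of the ideal of the point are nilpotent, with a bounded exponent -/
theorem Sp.nil {P : σ → L} {J : Ideal (MvPolynomial σ L)} {n s : ℕ} (h : Sp J n)
    (hJ : mI P ^ s ≤ J) {f : MvPolynomial σ L} (hf : f ∈ mI P) : f ^ n ∈ J := by
  obtain ⟨h1, h2⟩ := h.finite
  have : Module.Finite L (MvPolynomial σ L ⧸ J) := h1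
  let T : Module.End L (MvPolynomial σ L ⧸ J) := LinearMap.mulLeft L (Ideal.Quotient.mk J f)
  have hT : ∀ k : ℕ, (T ^ k) 1 = Ideal.Quotient.mk J (f ^ k) := by
    intro k
    induction k with
    | zero => simp
    | succ k ih =>
      rw [pow_succ', Module.End.mul_apply, ih, pow_succ', map_mul]
      rfl
  have h3 : (1 : MvPolynomial σ L ⧸ J) ∈ LinearMap.ker (T ^ (max s n)) := by
    rw [LinearMap.mem_ker, hT, Ideal.Quotient.eq_zero_iff_mem]
    refine hJ ?_
    exact Ideal.pow_le_pow_right (le_max_left s n) (Ideal.pow_mem_pow hf _)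
  rw [Module.End.ker_pow_eq_ker_pow_finrank_of_le (h2.trans (le_max_right s n)),
    ← Module.End.ker_pow_eq_ker_pow_finrank_of_le h2, LinearMap.mem_ker, hT,
    Ideal.Quotient.eq_zero_iff_mem] at h3
  exact h3

end basic

end Pool.Agent.Helper52.RP
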