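import Pool.Agent.Helper52.RP.Var

/-!
# Regular maps and curves, improved: the map of the cone
-/

set_option autoImplicit false

namespace Pool.Agent.Helper52.RP

open MvPolynomial

section cone

variable {L : Type*} [Field L] {N d : ℕ}

/-- The homogenisation of a polynomial. -/
noncomputable def hg (δ : ℕ) (g : MvPolynomial (Fin N) L) : MvPolynomial (Option (Fin N)) L :=
  ∑ e ∈ Finset.range (δ + 1), X none ^ (δ - e) * inc (homogeneousComponent e g)

/-- The homogenised map. -/
noncomputable def hm (d : ℕ) (Φ : Fin N → MvPolynomial (Fin N) L) (o : Option (Fin N)) :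
    MvPolynomial (Option (Fin N)) L :=
  o.elim (X none ^ d) (fun i => hg d (Φ i))

theorem rest_inc (f : MvPolynomial (Fin N) L) : rest (inc f) = f := by
  have h : (rest.comp inc : MvPolynomial (Fin N) L →ₐ[L] MvPolynomial (Fin N) L) = AlgHom.id L _ := by
    refine MvPolynomial.algHom_ext fun i => ?_
    rw [AlgHom.comp_apply, inc_X, rest_some]
    rfl
  exact congrArg (fun φ : MvPolynomial (Fin N) L →ₐ[L] MvPolynomial (Fin N) L => φ f) h

theorem rest_hg (δ : ℕ) (g : MvPolynomial (Fin N) L) : rest (hg δ g) = homogeneousComponent δ g := by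
  unfold hg
  rw [map_sum, Finset.sum_range_succ, Finset.sum_eq_zero, zero_add, map_mul, map_pow, rest_inc,
    Nat.sub_self, pow_zero, one_mul]
  intro e he
  rw [Finset.mem_range] at he
  rw [map_mul, map_pow, rest_none, zero_pow (by omega), zero_mul]

variable {Ω : Type*} [Field Ω] [Algebra L Ω]

/-- A point of the cone over a point of affine space. -/
def pt (τ : Ω) (x : Fin N → Ω) : Option (Fin N) → Ω := fun o => o.elim τ (fun i => τ * x i)

theorem aeval_inc (z : Option (Fin N) → Ω) (f : MvPolynomial (Fin N) L) :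
    aeval z (inc f) = aeval (fun i => z (some i)) f := by
  unfold inc
  rw [aeval_rename]
  rfl

theorem aeval_smul52 {f : MvPolynomial (Fin N) L} {m : ℕ} (hf : f.IsHomogeneous m) (c : Ω)
    (z : Fin N → Ω) : aeval (fun i => c * z i) f = c ^ m * aeval z f := by
  rw [aeval_def, aeval_def, eval₂_eq', eval₂_eq', Finset.mul_sum]
  refine Finset.sum_congr rfl fun s hs => ?_
  have h1 : ∑ i, s i = m := by
    have := hf (mem_support_iff.1 hs)
    rw [Finsupp.weight_apply, Finsupp.sum_fintype _ _ (by simp)] at this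
    simpa using this
  have h2 : ∏ i, (c * z i) ^ s i = c ^ m * ∏ i, z i ^ s i := by
    simp only [mul_pow]
    rw [Finset.prod_mul_distrib, Finset.prod_pow_eq_pow_sum, h1]
  rw [h2]
  ring

theorem aeval_hg_pt {δ : ℕ} {g : MvPolynomial (Fin N) L} (hg' : g.totalDegree ≤ δ) (τ : Ω)
    (x : Fin N → Ω) : aeval (pt τ x) (hg δ g) = τ ^ δ * aeval x g := by
  unfold hg
  have h1 : g = ∑ e ∈ Finset.range (δ + 1), homogeneousComponent e g := by
    conv_lhs => rw [← sum_homogeneousComponent g]
    refine Finset.sum_subset (Finset.range_mono (by omega)) fun e _ he => ?_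
    refine homogeneousComponent_eq_zero _ _ ?_
    rw [Finset.mem_range] at he
    omega
  conv_rhs => rw [h1, map_sum, Finset.mul_sum]
  rw [map_sum]
  refine Finset.sum_congr rfl fun e he => ?_
  have h2 : e ≤ δ := by
    rw [Finset.mem_range] at he
    omega
  rw [map_mul, map_pow, aeval_X, aeval_inc]
  have h3 : aeval (fun i => pt τ x (some i)) (homogeneousComponent e g) =
      τ ^ e * aeval x (homogeneousComponent e g) :=
    aeval_smul52 (homogeneousComponent_isHomogeneous e g) τ x
  rw [h3]
  change τ ^ (δ - e) * _ = _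
  rw [← mul_assoc, ← pow_add, Nat.sub_add_cancel h2]

theorem aeval_hg_smul (δ : ℕ) (g : MvPolynomial (Fin N) L) (c : Ω) (z : Option (Fin N) → Ω) :
    aeval (fun o => c * z o) (hg δ g) = c ^ δ * aeval z (hg δ g) := by
  unfold hg
  rw [map_sum, map_sum, Finset.mul_sum]
  refine Finset.sum_congr rfl fun e he => ?_
  have h2 : e ≤ δ := by
    rw [Finset.mem_range] at he
    omega
  rw [map_mul, map_mul, map_pow, map_pow, aeval_X, aeval_X, aeval_inc, aeval_inc,
    aeval_smul52 (homogeneousComponent_isHomogeneous e g) c (fun i => z (some i)), mul_pow]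
  have h3 : c ^ δ = c ^ (δ - e) * c ^ e := by rw [← pow_add, Nat.sub_add_cancel h2]
  rw [h3]
  ring

/-- The homogenised map on points. -/
noncomputable def hat (d : ℕ) (Φ : Fin N → MvPolynomial (Fin N) L) (z : Option (Fin N) → Ω) :
    Option (Fin N) → Ω := fun o => aeval z (hm d Φ o)

theorem hat_none (Φ : Fin N → MvPolynomial (Fin N) L) (z : Option (Fin N) → Ω) :
    hat d Φ z none = z none ^ d := by
  unfold hat hm
  simp

theorem hat_smul (Φ : Fin N → MvPolynomial (Fin N) L) (c : Ω) (z : Option (Fin N) → Ω) :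
    hat d Φ (fun o => c * z o) = fun o => c ^ d * hat d Φ z o := by
  funext o
  rcases o with _ | i
  · rw [hat_none, hat_none, mul_pow]
  · exact aeval_hg_smul d (Φ i) c z

theorem hat_pt {Φ : Fin N → MvPolynomial (Fin N) L} (hdeg : ∀ i, (Φ i).totalDegree ≤ d) (τ : Ω)
    (x : Fin N → Ω) : hat d Φ (pt τ x) = pt (τ ^ d) (fun i => aeval x (Φ i)) := by
  funext o
  rcases o with _ | i
  · rw [hat_none]
    rfl
  · exact aeval_hg_pt (hdeg i) τ x

theorem hat_iter_none (Φ : Fin N → MvPolynomial (Fin N) L) (k : ℕ) (z : Option (Fin N) → Ω) :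
    (hat d Φ)^[k] z none = z none ^ d ^ k := by
  induction k generalizing z with
  | zero => simp
  | succ k ih =>
    rw [Function.iterate_succ_apply, ih, hat_none, ← pow_mul, pow_succ']

theorem hat_iter_smul (Φ : Fin N → MvPolynomial (Fin N) L) (k : ℕ) (c : Ω) (z : Option (Fin N) → Ω) :
    (hat d Φ)^[k] (fun o => c * z o) = fun o => c ^ d ^ k * (hat d Φ)^[k] z o := by
  induction k generalizing c z with
  | zero => simp
  | succ k ih =>
    rw [Function.iterate_succ_apply, hat_smul, ih, Function.iterate_succ_apply, ← pow_mul, pow_succ']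

theorem hat_iter_pt {Φ : Fin N → MvPolynomial (Fin N) L} (hdeg : ∀ i, (Φ i).totalDegree ≤ d) (k : ℕ)
    (τ : Ω) (x : Fin N → Ω) :
    (hat d Φ)^[k] (pt τ x) = pt (τ ^ d ^ k) ((fun (x : Fin N → Ω) i => aeval x (Φ i))^[k] x) := by
  induction k generalizing τ x with
  | zero => simp
  | succ k ih =>
    rw [Function.iterate_succ_apply, hat_pt hdeg, ih, Function.iterate_succ_apply, ← pow_mul,
      pow_succ']

/-- The substitution of the homogenised map. -/
noncomputable def th0 (d : ℕ) (Φ : Fin N → MvPolynomial (Fin N) L) :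
    MvPolynomial (Option (Fin N)) L →ₐ[L] MvPolynomial (Option (Fin N)) L := bind₁ (hm d Φ)

theorem aeval_th0_iter (Φ : Fin N → MvPolynomial (Fin N) L) (k : ℕ) (z : Option (Fin N) → Ω)
    (f : MvPolynomial (Option (Fin N)) L) :
    aeval z ((th0 d Φ)^[k] f) = aeval ((hat d Φ)^[k] z) f := by
  induction k generalizing f with
  | zero => rfl
  | succ k ih =>
    rw [Function.iterate_succ_apply, ih, Function.iterate_succ_apply']
    unfold th0
    rw [aeval_bind₁]
    rfl

/-- The substitution of the normalised iterate. -/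
noncomputable def th (d : ℕ) (Φ : Fin N → MvPolynomial (Fin N) L) (k : ℕ) (κ : L) :
    MvPolynomial (Option (Fin N)) L →ₐ[L] MvPolynomial (Option (Fin N)) L :=
  bind₁ fun o => C κ⁻¹ * (th0 d Φ)^[k] (X o)

/-- The normalised iterate on points. -/
noncomputable def psi (d : ℕ) (Φ : Fin N → MvPolynomial (Fin N) L) (k : ℕ) (κ : L)
    (z : Option (Fin N) → Ω) : Option (Fin N) → Ω :=
  fun o => algebraMap L Ω κ⁻¹ * (hat d Φ)^[k] z o

theorem aeval_th (Φ : Fin N → MvPolynomial (Fin N) L) (k : ℕ) (κ : L) (z : Option (Fin N) → Ω)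
    (f : MvPolynomial (Option (Fin N)) L) :
    aeval z (th d Φ k κ f) = aeval (psi d Φ k κ z) f := by
  unfold th
  rw [aeval_bind₁]
  congr 2
  funext o
  rw [map_mul, aeval_C, aeval_th0_iter, aeval_X]
  rfl

theorem th0_iter_none (Φ : Fin N → MvPolynomial (Fin N) L) (k : ℕ) :
    (th0 d Φ)^[k] (X none) = X none ^ d ^ k := by
  induction k with
  | zero => simp
  | succ k ih =>
    rw [Function.iterate_succ_apply', ih, map_pow, pow_succ', pow_mul]
    congr 1
    unfold th0
    rw [bind₁_X_right]
    rfl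

theorem th_none (Φ : Fin N → MvPolynomial (Fin N) L) (k : ℕ) (κ : L) :
    th d Φ k κ (X none) = C κ⁻¹ * X none ^ d ^ k := by
  unfold th
  rw [bind₁_X_right, th0_iter_none]

theorem rest_th0 (hd : 1 ≤ d) (Φ : Fin N → MvPolynomial (Fin N) L)
    (f : MvPolynomial (Option (Fin N)) L) :
    rest (th0 d Φ f) = bind₁ (fun i => homogeneousComponent d (Φ i)) (rest f) := by
  have h : (rest.comp (th0 d Φ)) = (bind₁ (fun i => homogeneousComponent d (Φ i))).comp rest := by
    refine MvPolynomial.algHom_ext fun o => ?_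
    rw [AlgHom.comp_apply, AlgHom.comp_apply]
    unfold th0
    rw [bind₁_X_right]
    rcases o with _ | i
    · rw [rest_none, map_zero]
      change rest (X none ^ d) = 0
      rw [map_pow, rest_none, zero_pow (by omega)]
    · rw [rest_some, bind₁_X_right]
      exact rest_hg d (Φ i)
  exact congrArg (fun φ : MvPolynomial (Option (Fin N)) L →ₐ[L] MvPolynomial (Fin N) L => φ f) h

theorem rest_th0_iter (hd : 1 ≤ d) (Φ : Fin N → MvPolynomial (Fin N) L) (k : ℕ)
    (f : MvPolynomial (Option (Fin N)) L) :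
    rest ((th0 d Φ)^[k] f) = (bind₁ (fun i => homogeneousComponent d (Φ i)))^[k] (rest f) := by
  induction k generalizing f with
  | zero => rfl
  | succ k ih => rw [Function.iterate_succ_apply, ih, rest_th0 hd, ← Function.iterate_succ_apply]

theorem rest_th (hd : 1 ≤ d) (Φ : Fin N → MvPolynomial (Fin N) L) (k : ℕ) (κ : L) (i : Fin N) :
    rest (th d Φ k κ (X (some i))) =
      C κ⁻¹ * (bind₁ (fun i => homogeneousComponent d (Φ i)))^[k] (X i) := by
  unfold th
  rw [bind₁_X_right, map_mul, rest_C, rest_th0_iter hd, rest_some]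

end cone

end Pool.Agent.Helper52.RP
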