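import Pool.Agent.Helper52.RP.Val

/-!
# Regular maps and curves, improved: backward orbits in the cone and their rates of convergence
-/

set_option autoImplicit false

namespace Pool.Agent.Helper52.RP

open MvPolynomial Filter Topology

section dyn

variable {L : Type*} [Field L] {Ω : Type*} [Field Ω] [Algebra L Ω] {N d k : ℕ}
  {Φ : Fin N → MvPolynomial (Fin N) L} {κ : L} {q : Fin N → L} {μ : AbsoluteValue Ω ℝ}
  {U : Ultrafilter ℕ}

/-- convergence to the point -/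
def Cvg (μ : AbsoluteValue Ω ℝ) (U : Ultrafilter ℕ) (P : Option (Fin N) → L)
    (z : ℕ → Option (Fin N) → Ω) : Prop :=
  Tendsto (fun n => dst μ (z n) (ex Ω P)) (U : Filter ℕ) (𝓝 0)

/-- rate of convergence, relative to the coordinate at infinity -/
def Rt (μ : AbsoluteValue Ω ℝ) (U : Ultrafilter ℕ) (P : Option (Fin N) → L)
    (z : ℕ → Option (Fin N) → Ω) (a : ℝ) : Prop :=
  ∃ C : ℝ, 0 ≤ C ∧ ∀ᶠ n in (U : Filter ℕ), dst μ (z n) (ex Ω P) ≤ C * μ (z n none) ^ a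

/-- a bound near the point -/
noncomputable def bd (μ : AbsoluteValue Ω ℝ) (P : Option (Fin N) → L) : ℝ :=
  1 + ∑ o, μ (ex Ω P o)

theorem bd_P (P : Option (Fin N) → L) (o : Option (Fin N)) : μ (ex Ω P o) ≤ bd μ P := by
  unfold bd
  have : μ (ex Ω P o) ≤ ∑ o, μ (ex Ω P o) :=
    Finset.single_le_sum (f := fun o => μ (ex Ω P o)) (fun _ _ => μ.nonneg _) (Finset.mem_univ o)
  linarith

theorem Cvg.bdd {P : Option (Fin N) → L} {z : ℕ → Option (Fin N) → Ω} (h : Cvg μ U P z) :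
    ∀ᶠ n in (U : Filter ℕ), ∀ o, μ (z n o) ≤ bd μ P := by
  filter_upwards [h.eventually (gt_mem_nhds one_pos)] with n hn o
  have h1 := (le_dst μ (z n) (ex Ω P) o).trans hn.le
  have h2 := μ.add_le (z n o - ex Ω P o) (ex Ω P o)
  rw [sub_add_cancel] at h2
  have h3 : μ (ex Ω P o) ≤ ∑ o, μ (ex Ω P o) :=
    Finset.single_le_sum (f := fun o => μ (ex Ω P o)) (fun _ _ => μ.nonneg _) (Finset.mem_univ o)
  unfold bd
  linarith

theorem Cvg.coord {P : Option (Fin N) → L} {z : ℕ → Option (Fin N) → Ω} (h : Cvg μ U P z)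
    (o : Option (Fin N)) : Tendsto (fun n => μ (z n o - ex Ω P o)) (U : Filter ℕ) (𝓝 0) :=
  squeeze_zero (fun _ => μ.nonneg _) (fun _ => le_dst μ _ _ o) h

theorem psi_lip (P : Option (Fin N) → L) (hP : psi d Φ k κ (ex Ω P) = ex Ω P) :
    ∃ C : ℝ, 0 ≤ C ∧ ∀ z : Option (Fin N) → Ω, (∀ o, μ (z o) ≤ bd μ P) →
      dst μ (psi d Φ k κ z) (ex Ω P) ≤ C * dst μ z (ex Ω P) := by
  choose C M hC hM h using fun o : Option (Fin N) => lip52 μ (bd μ P) (th d Φ k κ (X o))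
  refine ⟨∑ o, C o, Finset.sum_nonneg fun o _ => hC o, fun z hz => ?_⟩
  conv_lhs => rw [dst]
  rw [Finset.sum_mul]
  refine Finset.sum_le_sum fun o _ => ?_
  have h1 := (h o z (ex Ω P) hz (bd_P P)).2
  rw [aeval_th, aeval_th, aeval_X, aeval_X, hP] at h1
  exact h1

theorem Cvg.psi {P : Option (Fin N) → L} (hP : psi d Φ k κ (ex Ω P) = ex Ω P)
    {z : ℕ → Option (Fin N) → Ω} (h : Cvg μ U P z) : Cvg μ U P (fun n => psi d Φ k κ (z n)) := by
  obtain ⟨C, hC, hb⟩ := psi_lip (μ := μ) P hP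
  have h1 := h.const_mul C
  rw [mul_zero] at h1
  refine squeeze_zero' (Eventually.of_forall fun n => dst_nonneg _ _ _) ?_ h1
  filter_upwards [h.bdd] with n hn
  exact hb (z n) hn

theorem pt_smul (c τ : Ω) (x : Fin N → Ω) : (fun o => c * pt τ x o) = pt (c * τ) x := by
  funext o
  rcases o with _ | i
  · rfl
  · change c * (τ * x i) = c * τ * x i
    ring

theorem psi_pt (hdeg : ∀ i, (Φ i).totalDegree ≤ d) (τ : Ω) (x : Fin N → Ω) :
    psi d Φ k κ (pt τ x) =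
      pt (algebraMap L Ω κ⁻¹ * τ ^ d ^ k) ((fun (x : Fin N → Ω) i => aeval x (Φ i))^[k] x) := by
  unfold psi
  rw [hat_iter_pt hdeg]
  exact pt_smul _ _ _

/-- lifting one step -/
theorem lift_step [IsAlgClosed Ω] (hd : 0 < d) (hdeg : ∀ i, (Φ i).totalDegree ≤ d) (hκ : κ ≠ 0)
    {P : Option (Fin N) → L} (hP : psi d Φ k κ (ex Ω P) = ex Ω P) {i0 : Fin N}
    (hi0 : P (some i0) = 1) {τ τ' : ℕ → Ω} {x x' : ℕ → Fin N → Ω}
    (hτ : ∀ᶠ n in (U : Filter ℕ), τ n ≠ 0) (hτ' : ∀ᶠ n in (U : Filter ℕ), τ' n ≠ 0)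
    (hx : ∀ᶠ n in (U : Filter ℕ), x n = (fun (x : Fin N → Ω) i => aeval x (Φ i))^[k] (x' n))
    (hz : Cvg μ U P fun n => pt (τ n) (x n)) (hw : Cvg μ U P fun n => pt (τ' n) (x' n)) :
    ∃ τ'' : ℕ → Ω, (∀ᶠ n in (U : Filter ℕ), τ'' n ≠ 0) ∧ (Cvg μ U P fun n => pt (τ'' n) (x' n)) ∧
      ∀ᶠ n in (U : Filter ℕ), psi d Φ k κ (pt (τ'' n) (x' n)) = pt (τ n) (x n) := by
  have hD : 0 < d ^ k := pow_pos hd k
  set Θ : ℕ → Ω := fun n => algebraMap L Ω κ⁻¹ * τ' n ^ d ^ k / τ n with hΘ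
  choose ρ hρ hρn using fun n => near_root μ hD (Θ n)
  have hκ' : algebraMap L Ω κ⁻¹ ≠ 0 := by
    rw [Ne, map_eq_zero]
    exact inv_ne_zero hκ
  have hpsi : ∀ᶠ n in (U : Filter ℕ), psi d Φ k κ (pt (τ' n) (x' n)) =
      fun o => Θ n * pt (τ n) (x n) o := by
    filter_upwards [hτ, hx] with n h1 h2
    rw [psi_pt hdeg, ← h2, pt_smul]
    congr 1
    simp only [hΘ]
    field_simp
  have hΘ0 : ∀ᶠ n in (U : Filter ℕ), Θ n ≠ 0 := by
    filter_upwards [hτ, hτ'] with n h1 h2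
    exact div_ne_zero (mul_ne_zero hκ' (pow_ne_zero _ h2)) h1
  -- convergence of the factor
  have hP1 : ex Ω P (some i0) = 1 := by
    unfold ex
    rw [hi0, map_one]
  have hΘ1 : Tendsto (fun n => μ (1 - Θ n)) (U : Filter ℕ) (𝓝 0) := by
    have h1 := (hw.psi hP).coord (some i0)
    have h2 := hz.coord (some i0)
    rw [hP1] at h1 h2
    have h3 := (h1.add h2).const_mul 2
    rw [add_zero, mul_zero] at h3
    refine squeeze_zero' (Eventually.of_forall fun n => μ.nonneg _) ?_ h3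
    filter_upwards [hpsi, h2.eventually (gt_mem_nhds (show (0 : ℝ) < 1 / 2 by norm_num))] with n h4 h5
    rw [h4]
    set ζ := pt (τ n) (x n) (some i0) with hζ
    have h6 : 1 / 2 ≤ μ ζ := by
      have := μ.add_le (-(ζ - 1)) ζ
      rw [μ.map_neg, show -(ζ - 1) + ζ = 1 by ring, map_one] at this
      linarith
    have h7 : ζ ≠ 0 := by
      intro h0
      rw [h0, map_zero] at h6
      norm_num at h6
    have e1 : (1 - Θ n) * ζ = -(Θ n * ζ - 1) + (ζ - 1) := by ring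
    have h8 : μ (1 - Θ n) * μ ζ ≤ μ (Θ n * ζ - 1) + μ (ζ - 1) := by
      rw [← map_mul, e1]
      refine (μ.add_le _ _).trans ?_
      rw [μ.map_neg]
    have h9 := μ.nonneg (1 - Θ n)
    nlinarith
  have hρ1 : Tendsto (fun n => μ (1 - ρ n)) (U : Filter ℕ) (𝓝 0) := by
    rw [Metric.tendsto_nhds]
    intro ε hε
    filter_upwards [hΘ1.eventually (gt_mem_nhds (pow_pos hε (d ^ k)))] with n hn
    rw [Real.dist_eq, sub_zero, abs_of_nonneg (μ.nonneg _)]
    exact lt_of_pow_lt_pow_left₀ _ hε.le ((hρn n).trans_lt hn)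
  have hρ0 : ∀ᶠ n in (U : Filter ℕ), 1 / 2 ≤ μ (ρ n) := by
    filter_upwards [hρ1.eventually (gt_mem_nhds (show (0 : ℝ) < 1 / 2 by norm_num))] with n hn
    have := μ.add_le (1 - ρ n) (ρ n)
    rw [sub_add_cancel, map_one] at this
    linarith
  refine ⟨fun n => (ρ n)⁻¹ * τ' n, ?_, ?_, ?_⟩
  · filter_upwards [hτ', hρ0] with n h1 h2
    have h3 : ρ n ≠ 0 := by
      intro h0
      rw [h0, map_zero] at h2
      norm_num at h2
    exact mul_ne_zero (inv_ne_zero h3) h1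
  · have h1 : Tendsto (fun n => 2 * (dst μ (pt (τ' n) (x' n)) (ex Ω P) +
        (∑ o, μ (ex Ω P o)) * μ (1 - ρ n))) (U : Filter ℕ) (𝓝 0) := by
      have h2 := (hw.add (hρ1.const_mul (∑ o, μ (ex Ω P o)))).const_mul 2
      rw [mul_zero, add_zero, mul_zero] at h2
      exact h2
    refine squeeze_zero' (Eventually.of_forall fun n => dst_nonneg _ _ _) ?_ h1
    filter_upwards [hρ0] with n h2
    have h3 : ρ n ≠ 0 := by
      intro h0
      rw [h0, map_zero] at h2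
      norm_num at h2
    rw [← pt_smul]
    unfold dst
    rw [Finset.sum_mul, ← Finset.sum_add_distrib, Finset.mul_sum]
    refine Finset.sum_le_sum fun o _ => ?_
    have e1 : (ρ n)⁻¹ * pt (τ' n) (x' n) o - ex Ω P o =
        (ρ n)⁻¹ * ((pt (τ' n) (x' n) o - ex Ω P o) + ex Ω P o * (1 - ρ n)) := by
      field_simp
      ring
    rw [e1, map_mul, map_inv₀]
    have h4 : (μ (ρ n))⁻¹ ≤ 2 := by
      rw [inv_le_comm₀ (by linarith) (by norm_num)]
      linarith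
    refine mul_le_mul h4 ?_ (μ.nonneg _) (by norm_num)
    refine (μ.add_le _ _).trans ?_
    rw [map_mul]
  · filter_upwards [hpsi, hρ0, hΘ0] with n h1 h2 h4
    have h3 : ρ n ≠ 0 := by
      intro h0
      rw [h0, map_zero] at h2
      norm_num at h2
    rw [← pt_smul]
    have h5 : psi d Φ k κ (fun o => (ρ n)⁻¹ * pt (τ' n) (x' n) o) =
        fun o => ((ρ n)⁻¹) ^ d ^ k * psi d Φ k κ (pt (τ' n) (x' n)) o := by
      unfold psi
      rw [hat_iter_smul]
      funext o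
      ring
    rw [h5, h1, inv_pow, hρ]
    funext o
    rw [← mul_assoc, inv_mul_cancel₀ h4, one_mul]

/-- one step of the rates -/
theorem rate_step {P : Option (Fin N) → L} (hP0 : P none = 0) {m : ℕ} (hm : 0 < m) (hκ : κ ≠ 0)
    (hnil : ∀ f ∈ mI P, f ^ m ∈ (mI P).map
      (th d Φ k κ : MvPolynomial (Option (Fin N)) L →+* MvPolynomial (Option (Fin N)) L) ⊔
        mI P ^ (m + 1) ⊔ Ideal.span {X none})
    {z z' : ℕ → Option (Fin N) → Ω} (hz : Cvg μ U P z) (hz' : Cvg μ U P z')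
    (hs' : ∀ᶠ n in (U : Filter ℕ), z' n none ≠ 0)
    (hpsi : ∀ᶠ n in (U : Filter ℕ), psi d Φ k κ (z' n) = z n) {a : ℝ}
    (hr : Rt μ U P z a) : Rt μ U P z' (min (d ^ k * a) 1 / m) := by
  classical
  have hΨ : ∀ (z : Option (Fin N) → Ω) f, aeval z (th d Φ k κ f) = aeval (psi d Φ k κ z) f :=
    fun z f => aeval_th Φ k κ z f
  -- one coordinate
  have hcoord : ∀ o : Option (Fin N), ∃ C : ℝ, 0 ≤ C ∧ ∀ z' : Option (Fin N) → Ω,
      (∀ o, μ (z' o) ≤ bd μ P) → (∀ o, μ (psi d Φ k κ z' o) ≤ bd μ P) →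
      μ (z' o - ex Ω P o) ^ m ≤ C * (dst μ (psi d Φ k κ z') (ex Ω P) +
        dst μ z' (ex Ω P) ^ (m + 1) + μ (z' none)) := by
    intro o
    have h1 := hnil (X o - C (P o)) (by rw [mem_mI]; simp)
    obtain ⟨u', hu', w, hw, e1⟩ := Submodule.mem_sup.1 h1
    obtain ⟨u, hu, v, hv, e2⟩ := Submodule.mem_sup.1 hu'
    obtain ⟨g, hg⟩ := Ideal.mem_span_singleton'.1 hw
    have hu1 : u ∈ itI P (th d Φ k κ) 1 := hu
    obtain ⟨C1, hC1, h2⟩ := val_it (Ω := Ω) μ (bd_P (μ := μ) P) hΨ 1 hu1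
    obtain ⟨C2, hC2, h3⟩ := val_pow (Ω := Ω) μ (bd_P (μ := μ) P) (m + 1) hv
    obtain ⟨C3, M, -, hM, h4⟩ := lip52 (Ω := Ω) μ (bd μ P) g
    refine ⟨C1 + C2 + M, by positivity, fun z' hz' hz'' => ?_⟩
    have e3 : μ (z' o - ex Ω P o) ^ m = μ (aeval z' ((X o - C (P o)) ^ m)) := by
      have e4 : aeval z' (X o - C (P o)) = z' o - ex Ω P o := by
        rw [map_sub, aeval_X, aeval_C]
        rfl
      rw [map_pow (aeval z'), e4, map_pow μ]
    rw [e3, ← e1, ← e2, ← hg, map_add (aeval z'), map_add (aeval z'), map_mul (aeval z'), aeval_X]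
    have h5 := h2 z' (by
      intro i hi o
      interval_cases i
      · exact hz' o
      · exact hz'' o)
    rw [Function.iterate_one] at h5
    have h6 := h3 z' hz'
    have h7 : μ (aeval z' g * z' none) ≤ M * μ (z' none) := by
      rw [map_mul]
      exact mul_le_mul_of_nonneg_right (h4 z' z' hz' hz').1 (μ.nonneg _)
    have h8 := μ.add_le (aeval z' u + aeval z' v) (aeval z' g * z' none)
    have h9 := μ.add_le (aeval z' u) (aeval z' v)
    have p1 := dst_nonneg μ (psi d Φ k κ z') (ex Ω P)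
    have p2 : 0 ≤ dst μ z' (ex Ω P) ^ (m + 1) := pow_nonneg (dst_nonneg μ _ _) _
    have p3 := μ.nonneg (z' none)
    nlinarith [mul_nonneg hC1 p2, mul_nonneg hC1 p3, mul_nonneg hC2 p1, mul_nonneg hC2 p3,
      mul_nonneg hM p1, mul_nonneg hM p2]
  choose Cc hCc hcc using hcoord
  obtain ⟨C0, hC0, hr⟩ := hr
  set S : ℝ := ∑ o, Cc o with hS
  have hS0 : 0 ≤ S := Finset.sum_nonneg fun o _ => hCc o
  set n1 : ℝ := (Fintype.card (Option (Fin N)) : ℝ) with hn1
  have hn1p : 0 < n1 := by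
    rw [hn1]
    exact_mod_cast Fintype.card_pos
  set E : ℝ := n1 ^ m * S with hE
  have hE0 : 0 ≤ E := by positivity
  have hdm : ∀ᶠ n in (U : Filter ℕ), dst μ (z' n) (ex Ω P) ^ m ≤
      2 * E * (dst μ (z n) (ex Ω P) + μ (z' n none)) := by
    filter_upwards [hz.bdd, hz'.bdd, hpsi, hz'.eventually (gt_mem_nhds
      (show (0 : ℝ) < 1 / (2 * E + 1) by positivity))] with n b1 b2 h1 h2
    set t := dst μ (z' n) (ex Ω P) with ht
    have ht0 : 0 ≤ t := dst_nonneg _ _ _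
    obtain ⟨o, -, ho⟩ : ∃ o ∈ (Finset.univ : Finset (Option (Fin N))),
        t / n1 ≤ μ (z' n o - ex Ω P o) := by
      refine Finset.exists_le_of_sum_le Finset.univ_nonempty ?_
      rw [Finset.sum_const, Finset.card_univ, nsmul_eq_mul, ← hn1, mul_div_cancel₀ _ hn1p.ne']
      exact le_of_eq rfl
    have h3 := hcc o (z' n) b2 (by rw [h1]; exact b1)
    rw [h1] at h3
    have h4 : (t / n1) ^ m ≤ S * (dst μ (z n) (ex Ω P) + t ^ (m + 1) + μ (z' n none)) := by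
      refine (pow_le_pow_left₀ (by positivity) ho m).trans (h3.trans ?_)
      refine mul_le_mul_of_nonneg_right (Finset.single_le_sum (f := Cc) (fun o _ => hCc o)
        (Finset.mem_univ o)) ?_
      have := dst_nonneg μ (z n) (ex Ω P)
      have := μ.nonneg (z' n none)
      positivity
    rw [div_pow, div_le_iff₀ (by positivity)] at h4
    have h5 : t ^ m ≤ E * (dst μ (z n) (ex Ω P) + μ (z' n none)) + E * t * t ^ m := by
      calc t ^ m ≤ _ := h4
        _ = _ := by rw [hE, pow_succ]; ring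
    have h6 : E * t ≤ 1 / 2 := by
      rw [lt_div_iff₀ (by positivity)] at h2
      nlinarith
    have h7 : 0 ≤ t ^ m := by positivity
    nlinarith
  have hκ' : 0 < μ (algebraMap L Ω κ⁻¹) := by
    refine μ.pos ?_
    rw [Ne, map_eq_zero]
    exact inv_ne_zero hκ
  set e : ℝ := min (d ^ k * a) 1 with he
  set C2 : ℝ := 2 * E * (C0 * μ (algebraMap L Ω κ⁻¹) ^ a + 1) with hC2
  have hC20 : 0 ≤ C2 := by
    have := Real.rpow_nonneg hκ'.le a
    positivity
  refine ⟨C2 ^ (1 / (m : ℝ)), Real.rpow_nonneg hC20 _, ?_⟩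
  have hsmall : ∀ᶠ n in (U : Filter ℕ), μ (z' n none) < 1 := by
    have h1 := hz'.coord none
    have h2 : ex Ω P none = 0 := by
      unfold ex
      rw [hP0, map_zero]
    rw [h2] at h1
    simp only [sub_zero] at h1
    exact h1.eventually (gt_mem_nhds one_pos)
  filter_upwards [hdm, hr, hpsi, hs', hsmall] with n h1 h2 h3 h4 h5
  have h6 : 0 < μ (z' n none) := μ.pos h4
  have h7 : μ (z n none) = μ (algebraMap L Ω κ⁻¹) * μ (z' n none) ^ d ^ k := by
    rw [← h3]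
    unfold psi
    rw [hat_iter_none, map_mul, map_pow]
  have h8 : μ (z n none) ^ a = μ (algebraMap L Ω κ⁻¹) ^ a * μ (z' n none) ^ ((d : ℝ) ^ k * a) := by
    rw [h7, Real.mul_rpow hκ'.le (by positivity), ← Real.rpow_natCast, ← Real.rpow_mul h6.le]
    push_cast
    rfl
  have h9 : μ (z' n none) ^ ((d : ℝ) ^ k * a) ≤ μ (z' n none) ^ e :=
    Real.rpow_le_rpow_of_exponent_ge h6 h5.le (min_le_left _ _)
  have h10 : μ (z' n none) ≤ μ (z' n none) ^ e := by
    conv_lhs => rw [← Real.rpow_one (μ (z' n none))]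
    exact Real.rpow_le_rpow_of_exponent_ge h6 h5.le (min_le_right _ _)
  have h11 : dst μ (z' n) (ex Ω P) ^ m ≤ C2 * μ (z' n none) ^ e := by
    refine h1.trans ?_
    rw [hC2, mul_assoc, mul_assoc (2 : ℝ), mul_assoc (2 : ℝ), mul_assoc E]
    refine mul_le_mul_of_nonneg_left (mul_le_mul_of_nonneg_left ?_ hE0) (by norm_num)
    rw [add_mul, one_mul]
    refine add_le_add ?_ h10
    refine h2.trans ?_
    rw [h8, mul_assoc]
    exact mul_le_mul_of_nonneg_left (mul_le_mul_of_nonneg_left h9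
      (Real.rpow_nonneg hκ'.le _)) hC0
  have hm' : (0 : ℝ) < m := by exact_mod_cast hm
  have h12 : dst μ (z' n) (ex Ω P) = (dst μ (z' n) (ex Ω P) ^ m) ^ (1 / (m : ℝ)) := by
    rw [← Real.rpow_natCast, ← Real.rpow_mul (dst_nonneg _ _ _), mul_one_div_cancel hm'.ne',
      Real.rpow_one]
  rw [h12]
  calc (dst μ (z' n) (ex Ω P) ^ m) ^ (1 / (m : ℝ)) ≤ (C2 * μ (z' n none) ^ e) ^ (1 / (m : ℝ)) :=
        Real.rpow_le_rpow (pow_nonneg (dst_nonneg _ _ _) _) h11 (by positivity)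
    _ = C2 ^ (1 / (m : ℝ)) * μ (z' n none) ^ (e / m) := by
        rw [Real.mul_rpow hC20 (Real.rpow_nonneg h6.le _), ← Real.rpow_mul h6.le, mul_one_div]

end dyn

end Pool.Agent.Helper52.RP
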