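import Pool.Agent.Helper26.RC.Lio

/-! The product formula (the argument of `RC/Lio.lean` for an arbitrary local estimate). -/

set_option autoImplicit false

namespace Pool.Agent.Helper52.RP

open MvPolynomial Filter Topology NumberField
open Pool.Agent.Helper64.Vojta (Pl nv)
open Pool.Agent.Helper26.RC

variable {K Ω : Type*} [Field K] [NumberField K] [Field Ω] [Algebra K Ω] {N : ℕ}

theorem liou (U : Ultrafilter ℕ) (x : ℕ → Fin N → K) (S : Finset (Pl K))
    (hS : ∀ n, ∀ v, v ∉ S → ∀ i, nv v (x n i) ≤ 1)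
    (t : ℕ → ℝ) (ht : Tendsto t (U : Filter ℕ) atTop) (g : Pl K → ℝ)
    (hg : ∀ v ∈ S, Tendsto (fun n => Real.log (sz (av v) (x n)) / t n) (U : Filter ℕ) (𝓝 (g v)))
    {v : Pl K} (hv : v ∈ S) (hgv : 0 < g v) {μ : AbsoluteValue Ω ℝ} (hμ : Ext v μ)
    {T δ : ℕ}
    (hT : δ * ∑ w ∈ S, wt w * g w < T * (wt v * g v)) {p : MvPolynomial (Fin N) K}
    (hp : p.totalDegree ≤ δ) (hest : ∃ C : ℝ, 0 < C ∧ ∀ᶠ n in (U : Filter ℕ),
      μ (aeval (emb Ω x n) p) * sz μ (emb Ω x n) ^ (T - δ) ≤ C) :
    p ∈ van U x := by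
  classical
  have hlog0 : ∀ w n, 0 ≤ Real.log (sz (av w) (x n)) := fun w n =>
    Real.log_nonneg (one_le_sz (av w) (x n))
  have hg0 : ∀ w ∈ S, 0 ≤ g w := by
    intro w hw
    refine ge_of_tendsto (hg w hw) ?_
    filter_upwards [ht.eventually_gt_atTop 0] with n hn
    exact div_nonneg (hlog0 w n) hn.le
  have hTδ : δ < T := by
    have h1 : (wt v * g v : ℝ) ≤ ∑ w ∈ S, wt w * g w :=
      Finset.single_le_sum (f := fun w => (wt w * g w : ℝ))
        (fun w hw => mul_nonneg (Nat.cast_nonneg _) (hg0 w hw)) hv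
    have h2 : (0 : ℝ) < wt v * g v := mul_pos (Nat.cast_pos.2 (wt_pos v)) hgv
    have h3 : (δ : ℝ) * (wt v * g v) < T * (wt v * g v) :=
      (mul_le_mul_of_nonneg_left h1 (Nat.cast_nonneg δ)).trans_lt hT
    exact_mod_cast lt_of_mul_lt_mul_right h3 h2.le
  by_contra hcon
  rw [notMem_van] at hcon
  obtain ⟨C, hC0, hC⟩ := hest
  obtain ⟨R, hR⟩ := Lio.fin_bad p
  choose c hc0 hc using fun w : Pl K => eval_le (av w) p
  set Z : Finset (Pl K) := S ∪ R with hZ
  set G : ℕ → Pl K → ℝ := fun n w =>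
    if w ∈ Z then wt w * (Real.log (c w) + δ * Real.log (sz (av w) (x n))) else 0 with hG
  have hGle : ∀ n, eval (x n) p ≠ 0 → ∀ w, Real.log (nv w (eval (x n) p)) ≤ G n w := by
    intro n hn w
    simp only [hG]
    have hpos : 0 < av w (eval (x n) p) := (av w).pos hn
    have hsz := one_le_sz (av w) (x n)
    split_ifs with h
    · rw [nv_eq, Real.log_pow]
      refine mul_le_mul_of_nonneg_left ?_ (Nat.cast_nonneg _)
      have h1 : av w (eval (x n) p) ≤ c w * sz (av w) (x n) ^ δ :=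
        (hc w (x n)).trans (mul_le_mul_of_nonneg_left (pow_le_pow_right₀ hsz hp) (hc0 w).le)
      have h2 := Real.log_le_log hpos h1
      rw [Real.log_mul (hc0 w).ne' (by positivity), Real.log_pow] at h2
      exact h2
    · rw [hZ, Finset.mem_union, not_or] at h
      exact Real.log_nonpos (Pool.Agent.Helper64.Vojta.nv_nonneg _ _) (hR w h.2 _ (hS n w h.1))
  have hGfin : ∀ n, Pool.Agent.V2.FinS (G n) := fun n =>
    Pool.Agent.V2.AR5.finS_supp Z (G n) fun w hw => by simp only [hG, hw, if_false]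
  have hGs : ∀ n, Pool.Agent.V2.gsum (G n) = ∑ w ∈ Z, wt w * (Real.log (c w) +
      δ * Real.log (sz (av w) (x n))) := by
    intro n
    rw [Pool.Agent.V2.AR5.gsum_supp Z (G n) fun w hw => by simp only [hG, hw, if_false]]
    refine Finset.sum_congr rfl fun w hw => ?_
    simp only [hG, hw, if_true]
  have hvZ : v ∈ Z := Finset.mem_union_left _ hv
  -- the constant
  set D : ℝ := wt v * Real.log C - wt v * Real.log (c v) + ∑ w ∈ Z, wt w * Real.log (c w) +
    δ * ∑ w ∈ Z \ S, wt w * Real.log (1 + N) with hD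
  have hszR : ∀ w, w ∉ S → ∀ n, Real.log (sz (av w) (x n)) ≤ Real.log (1 + N) := by
    intro w hw n
    refine Real.log_le_log (lt_of_lt_of_le one_pos (one_le_sz _ _)) ?_
    unfold sz
    have h1 : ∀ i, av w (x n i) ≤ 1 := by
      intro i
      have := hS n w hw i
      rw [nv_eq] at this
      exact (pow_le_one_iff_of_nonneg ((av w).nonneg _) (wt_pos w).ne').1 this
    have h2 : ∑ i, av w (x n i) ≤ ∑ _i : Fin N, (1 : ℝ) := Finset.sum_le_sum fun i _ => h1 i
    rw [Finset.sum_const, Finset.card_univ, Fintype.card_fin, nsmul_eq_mul, mul_one] at h2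
    linarith
  have hkey : ∀ᶠ n in (U : Filter ℕ), T * (wt v * Real.log (sz (av v) (x n))) ≤
      D + δ * ∑ w ∈ S, wt w * Real.log (sz (av w) (x n)) := by
    filter_upwards [hC, hcon] with n h1 h2
    have e0 : aeval (emb Ω x n) p = algebraMap K Ω (eval (x n) p) := by
      unfold emb
      rw [MvPolynomial.aeval_def, MvPolynomial.eval₂_eq', MvPolynomial.eval_eq', map_sum]
      refine Finset.sum_congr rfl fun m _ => ?_
      rw [map_mul, map_prod]
      simp only [map_pow]
    have e1 : sz μ (emb Ω x n) = sz (av v) (x n) := by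
      unfold sz emb
      simp only [hμ.base]
    rw [e0, hμ.base, e1] at h1
    have hpos : 0 < av v (eval (x n) p) := (av v).pos h2
    have hsz := one_le_sz (av v) (x n)
    have h3 := Real.log_le_log (by positivity) h1
    rw [Real.log_mul hpos.ne' (by positivity), Real.log_pow, Nat.cast_sub hTδ.le] at h3
    have h4 := Pool.Agent.V2.le_nv_of_ne_zero h2 (G n) (hGfin n) (hGle n h2) v
    rw [hGs, nv_eq, Real.log_pow] at h4
    simp only [hG, hvZ, if_true] at h4
    have h5 : ∑ w ∈ Z, wt w * (Real.log (c w) + δ * Real.log (sz (av w) (x n))) =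
        ∑ w ∈ Z, wt w * Real.log (c w) + δ * ∑ w ∈ Z, wt w * Real.log (sz (av w) (x n)) := by
      rw [Finset.mul_sum, ← Finset.sum_add_distrib]
      refine Finset.sum_congr rfl fun w _ => ?_
      ring
    have h6 : ∑ w ∈ Z, (wt w : ℝ) * Real.log (sz (av w) (x n)) ≤
        ∑ w ∈ S, wt w * Real.log (sz (av w) (x n)) + ∑ w ∈ Z \ S, wt w * Real.log (1 + N) := by
      rw [← Finset.sum_sdiff (Finset.subset_union_left : S ⊆ Z), add_comm]
      refine add_le_add le_rfl (Finset.sum_le_sum fun w hw => ?_)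
      exact mul_le_mul_of_nonneg_left (hszR w (Finset.mem_sdiff.1 hw).2 n) (Nat.cast_nonneg _)
    have h7 := mul_le_mul_of_nonneg_left h3 (Nat.cast_nonneg (α := ℝ) (wt v))
    have h8 := mul_le_mul_of_nonneg_left h6 (Nat.cast_nonneg (α := ℝ) δ)
    rw [h5] at h4
    rw [hD]
    nlinarith
  have hlim1 : Tendsto (fun n => T * (wt v * (Real.log (sz (av v) (x n)) / t n))) (U : Filter ℕ)
      (𝓝 (T * (wt v * g v))) := ((hg v hv).const_mul _).const_mul _
  have hlim2 : Tendsto (fun n => D / t n + δ * ∑ w ∈ S, wt w * (Real.log (sz (av w) (x n)) / t n))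
      (U : Filter ℕ) (𝓝 (0 + δ * ∑ w ∈ S, wt w * g w)) :=
    (ht.const_div_atTop D).add ((tendsto_finsetSum S fun w hw => (hg w hw).const_mul _).const_mul _)
  rw [zero_add] at hlim2
  have hle := le_of_tendsto_of_tendsto hlim1 hlim2 (by
    filter_upwards [hkey, ht.eventually_gt_atTop 0] with n h1 h2
    have h3 := div_le_div_of_nonneg_right h1 h2.le
    calc T * (wt v * (Real.log (sz (av v) (x n)) / t n))
        = T * (wt v * Real.log (sz (av v) (x n))) / t n := by ring
      _ ≤ _ := h3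
      _ = _ := by
        rw [add_div, mul_div_assoc, Finset.sum_div]
        simp only [mul_div_assoc])
  exact absurd hT (not_lt.2 hle)

end Pool.Agent.Helper52.RP
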