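import Pool.Agent.Helper52.RP.Chain
import Pool.Agent.Helper52.RP.Codim
import Pool.Agent.Helper52.RP.Liou

/-!
# Regular maps and curves, improved: the second half of the proof
-/

set_option autoImplicit false

namespace Pool.Agent.Helper52.RP

open MvPolynomial Filter Topology NumberField
open Pool.Agent.Helper64.Vojta (Pl nv)
open Pool.Agent.Helper26.RC (av wt Ext van mem_van sz emb Dir one_le_sz pmap)

section alg

variable {L : Type*} [Field L] {N d : ℕ}

/-- the iterated forms at infinity -/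
noncomputable def Gk (d : ℕ) (Φ : Fin N → MvPolynomial (Fin N) L) (k : ℕ) (i : Fin N) :
    MvPolynomial (Fin N) L :=
  (bind₁ (fun i => homogeneousComponent d (Φ i)))^[k] (X i)

/-- the ideal of the solutions of the system with the solution `q` -/
noncomputable def sysI (d : ℕ) (Φ : Fin N → MvPolynomial (Fin N) L) (k : ℕ) (q : Fin N → L) :
    Ideal (MvPolynomial (Fin N) L) :=
  Ideal.span (Set.range fun i => Gk d Φ k i - C (eval q (Gk d Φ k i)))

theorem eval_cone (q : Fin N → L) (f : MvPolynomial (Option (Fin N)) L) :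
    eval (cone q) f = eval q (rest f) := by
  obtain ⟨g, hg⟩ := sub_inc_rest f
  conv_lhs => rw [hg]
  rw [map_add, eval_inc, map_mul, eval_X]
  simp [cone]

theorem sysI_le {Φ : Fin N → MvPolynomial (Fin N) L} (hd : 1 ≤ d) {k : ℕ} {κ : L} (hκ : κ ≠ 0)
    {q : Fin N → L} (hq : ∀ i, eval q (Gk d Φ k i) = κ * q i) :
    sysI d Φ k q ≤ Ideal.span (Set.range fun i => rest (th d Φ k κ (X (some i))) - C (q i)) := by
  refine Ideal.span_le.2 ?_
  rintro _ ⟨i, rfl⟩
  have e : (fun i => Gk d Φ k i - C (eval q (Gk d Φ k i))) i =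
      C κ * (rest (th d Φ k κ (X (some i))) - C (q i)) := by
    change Gk d Φ k i - C (eval q (Gk d Φ k i)) = _
    rw [rest_th hd, hq, mul_sub, ← mul_assoc, ← C_mul, mul_inv_cancel₀ hκ, C_1, one_mul, ← C_mul]
    rfl
  rw [e]
  exact Ideal.mul_mem_left _ _ (Ideal.subset_span ⟨i, rfl⟩)

theorem eval_th {Φ : Fin N → MvPolynomial (Fin N) L} (hd : 1 ≤ d) {k : ℕ} {κ : L} (hκ : κ ≠ 0)
    {q : Fin N → L} (hq : ∀ i, eval q (Gk d Φ k i) = κ * q i) (o : Option (Fin N)) :
    eval (cone q) (th d Φ k κ (X o)) = cone q o := by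
  rw [eval_cone]
  rcases o with _ | i
  · rw [th_none, map_mul, rest_C, map_pow, rest_none, zero_pow (pow_pos (by omega) k).ne', mul_zero,
      map_zero]
    rfl
  · rw [rest_th hd, map_mul, eval_C]
    have := hq i
    unfold Gk at this
    rw [this, ← mul_assoc, inv_mul_cancel₀ hκ, one_mul]
    rfl

theorem psi_fix {Ω : Type*} [Field Ω] [Algebra L Ω] {Φ : Fin N → MvPolynomial (Fin N) L}
    (hd : 1 ≤ d) {k : ℕ} {κ : L} (hκ : κ ≠ 0) {q : Fin N → L}
    (hq : ∀ i, eval q (Gk d Φ k i) = κ * q i) :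
    psi d Φ k κ (ex Ω (cone q)) = ex Ω (cone q) := by
  funext o
  have h := aeval_th (d := d) Φ k κ (ex Ω (cone q)) (X o)
  rw [aeval_X, aeval_ex, eval_th hd hκ hq] at h
  exact h.symm

theorem eval_th_all {Φ : Fin N → MvPolynomial (Fin N) L} (hd : 1 ≤ d) {k : ℕ} {κ : L} (hκ : κ ≠ 0)
    {q : Fin N → L} (hq : ∀ i, eval q (Gk d Φ k i) = κ * q i) (f : MvPolynomial (Option (Fin N)) L) :
    eval (cone q) (th d Φ k κ f) = eval (cone q) f := by
  have h : ((aeval (cone q) : MvPolynomial (Option (Fin N)) L →ₐ[L] L).comp (th d Φ k κ)) =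
      aeval (cone q) := by
    refine MvPolynomial.algHom_ext fun o => ?_
    rw [AlgHom.comp_apply]
    have h1 := eval_th hd hκ hq o
    rw [← MvPolynomial.coe_aeval_eq_eval] at h1
    rw [aeval_X]
    exact h1
  have h2 := congrArg (fun φ : MvPolynomial (Option (Fin N)) L →ₐ[L] L => φ f) h
  rw [← MvPolynomial.coe_aeval_eq_eval]
  exact h2

end alg

section dir

variable {L : Type*} [Field L] {Ω : Type*} [Field Ω] [Algebra L Ω] {N : ℕ}
  {μ : AbsoluteValue Ω ℝ} {U : Ultrafilter ℕ}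

theorem dir_cvg {y : ℕ → Fin N → Ω} {q : Fin N → L} {i0 : Fin N} (hi0 : q i0 = 1)
    (hlt : ∀ j < i0, q j = 0) (h : Dir μ U y (fun j => algebraMap L Ω (q j)))
    (hg : Tendsto (fun n => Real.log (sz μ (y n))) (U : Filter ℕ) atTop) :
    (∀ᶠ n in (U : Filter ℕ), y n i0 ≠ 0) ∧ (Cvg μ U (cone q) fun n => pt (y n i0)⁻¹ (y n)) ∧
      ∃ a0 : ℝ, 0 < a0 ∧ Rt μ U (cone q) (fun n => pt (y n i0)⁻¹ (y n)) a0 := by
  classical
  obtain ⟨i, hi, hi2, C, η, hC, hη, hev⟩ := h
  have hii : i = i0 := by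
    rcases lt_trichotomy i i0 with h1 | h1 | h1
    · have h2 := hlt i h1
      have h3 : algebraMap L Ω (q i) = 1 := hi
      rw [h2, map_zero] at h3
      exact absurd h3 zero_ne_one
    · exact h1
    · have h2 : algebraMap L Ω (q i0) = 0 := hi2 i0 h1
      rw [hi0, map_one] at h2
      exact absurd h2 one_ne_zero
  subst hii
  have hsz : Tendsto (fun n => sz μ (y n)) (U : Filter ℕ) atTop := by
    refine (Real.tendsto_exp_atTop.comp hg).congr fun n => ?_
    exact Real.exp_log (lt_of_lt_of_le one_pos (one_le_sz μ _))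
  have hd : ∀ n, dst μ (pt (y n i)⁻¹ (y n)) (ex Ω (cone q)) =
      μ (y n i)⁻¹ + ∑ j, μ (y n j / y n i - algebraMap L Ω (q j)) := by
    intro n
    unfold dst
    rw [Fintype.sum_option]
    congr 1
    · change μ ((y n i)⁻¹ - algebraMap L Ω 0) = _
      rw [map_zero, sub_zero]
    · refine Finset.sum_congr rfl fun j _ => ?_
      change μ ((y n i)⁻¹ * y n j - algebraMap L Ω (q j)) = _
      rw [div_eq_inv_mul]
  have hmain : ∀ᶠ n in (U : Filter ℕ), dst μ (pt (y n i)⁻¹ (y n)) (ex Ω (cone q)) ≤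
      C * (sz μ (y n))⁻¹ + N * (C * sz μ (y n) ^ (-η)) := by
    filter_upwards [hev] with n hn
    rw [hd]
    refine add_le_add ?_ ?_
    · rw [map_inv₀, ← div_eq_mul_inv, inv_eq_one_div, div_le_div_iff₀ (μ.pos hn.1)
        (lt_of_lt_of_le one_pos (one_le_sz μ _)), one_mul]
      exact hn.2.1
    · have := Finset.sum_le_sum (s := Finset.univ) fun (j : Fin N) _ => hn.2.2 j
      rw [Finset.sum_const, Finset.card_univ, Fintype.card_fin, nsmul_eq_mul] at this
      exact this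
  refine ⟨hev.mono fun n hn => hn.1, ?_, min 1 η, lt_min one_pos hη, 1 + N * C, by positivity, ?_⟩
  · have h1 : Tendsto (fun n => C * (sz μ (y n))⁻¹ + N * (C * sz μ (y n) ^ (-η))) (U : Filter ℕ)
        (𝓝 (C * 0 + N * (C * 0))) := by
      refine (hsz.inv_tendsto_atTop.const_mul C).add ((((tendsto_rpow_neg_atTop hη).comp hsz).const_mul
        C).const_mul _)
    rw [mul_zero, mul_zero, add_zero] at h1
    exact squeeze_zero' (Eventually.of_forall fun n => dst_nonneg _ _ _) hmain h1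
  · filter_upwards [hev, hsz.eventually_ge_atTop (C + 1)] with n hn hn2
    rw [hd]
    change _ ≤ _ * μ (y n i)⁻¹ ^ min 1 η
    have h1 : 0 < μ (y n i) := μ.pos hn.1
    have h2 : 1 ≤ μ (y n i) := by
      have h3 := hn.2.1
      by_contra hcon
      push Not at hcon
      nlinarith
    have h3 : μ (y n i)⁻¹ ≤ 1 := by
      rw [map_inv₀]
      exact inv_le_one_of_one_le₀ h2
    have h4 : 0 < μ (y n i)⁻¹ := by
      rw [map_inv₀]
      positivity
    have h5 : μ (y n i)⁻¹ ≤ μ (y n i)⁻¹ ^ min 1 η := by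
      conv_lhs => rw [← Real.rpow_one (μ (y n i)⁻¹)]
      exact Real.rpow_le_rpow_of_exponent_ge h4 h3 (min_le_left _ _)
    have h6 : sz μ (y n) ^ (-η) ≤ μ (y n i)⁻¹ ^ min 1 η := by
      have h7 : μ (y n i) ≤ sz μ (y n) := by
        unfold sz
        have : μ (y n i) ≤ ∑ i, μ (y n i) :=
          Finset.single_le_sum (f := fun i => μ (y n i)) (fun _ _ => μ.nonneg _) (Finset.mem_univ i)
        linarith
      calc sz μ (y n) ^ (-η) ≤ μ (y n i) ^ (-η) :=
            Real.rpow_le_rpow_of_nonpos h1 h7 (by linarith)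
        _ = μ (y n i)⁻¹ ^ η := by
            rw [map_inv₀, Real.inv_rpow h1.le, Real.rpow_neg h1.le]
        _ ≤ μ (y n i)⁻¹ ^ min 1 η := Real.rpow_le_rpow_of_exponent_ge h4 h3 (min_le_right _ _)
    rw [add_mul, one_mul]
    refine add_le_add h5 ?_
    have := Finset.sum_le_sum (s := Finset.univ) fun (j : Fin N) _ => hn.2.2 j
    rw [Finset.sum_const, Finset.card_univ, Fintype.card_fin, nsmul_eq_mul] at this
    refine this.trans ?_
    rw [mul_assoc]
    exact mul_le_mul_of_nonneg_left (mul_le_mul_of_nonneg_left h6 hC.le) (Nat.cast_nonneg _)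

end dir

/-- the choice of the parameters -/
theorem params {a : ℝ} (ha : 0 < a) {D m M : ℕ} (hM : 0 < M) (hm : 0 < m) (hmD : m < D) :
    ∃ j δ T : ℕ, T = δ * M + 1 ∧ (T : ℝ) ≤ a * (D : ℝ) ^ j ∧
      2 * (D * m) ^ j < (δ + 2).choose 2 := by
  have hm' : (0 : ℝ) < m := by exact_mod_cast hm
  have hD' : (0 : ℝ) < D := by exact_mod_cast (by omega : 0 < D)
  have hM' : (0 : ℝ) < M := by exact_mod_cast hM
  have h1 : Tendsto (fun j : ℕ => ((D : ℝ) / m) ^ j) atTop atTop := by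
    refine tendsto_pow_atTop_atTop_of_one_lt ?_
    rw [one_lt_div hm']
    exact_mod_cast hmD
  have h2 : Tendsto (fun j : ℕ => a * (D : ℝ) ^ j) atTop atTop := by
    refine Tendsto.const_mul_atTop ha (tendsto_pow_atTop_atTop_of_one_lt ?_)
    exact_mod_cast (by omega : 1 < D)
  obtain ⟨j, h3, h4⟩ := ((h1.eventually_gt_atTop (16 * M ^ 2 / a ^ 2)).and
    (h2.eventually_ge_atTop 2)).exists
  set B := a * (D : ℝ) ^ j with hB
  obtain ⟨δ, hδ⟩ : ∃ δ : ℕ, δ = ⌊(B - 1) / M⌋₊ := ⟨_, rfl⟩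
  have h5 : (0 : ℝ) ≤ (B - 1) / M := div_nonneg (by linarith) hM'.le
  have h6 : (δ : ℝ) ≤ (B - 1) / M := hδ ▸ Nat.floor_le h5
  have h7 : (B - 1) / M < δ + 1 := hδ ▸ Nat.lt_floor_add_one _
  refine ⟨j, δ, δ * M + 1, rfl, ?_, ?_⟩
  · rw [le_div_iff₀ hM'] at h6
    push_cast
    linarith
  · have h8 : B / (2 * M) < δ + 1 := by
      refine lt_of_le_of_lt ?_ h7
      rw [div_le_div_iff₀ (by positivity) hM']
      nlinarith
    have h9 : (B / (2 * M)) ^ 2 < ((δ : ℝ) + 1) ^ 2 :=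
      pow_lt_pow_left₀ h8 (by positivity) (by norm_num)
    have h10 : 4 * ((D : ℝ) * m) ^ j < (B / (2 * M)) ^ 2 := by
      rw [div_lt_iff₀ (by positivity)] at h3
      rw [div_pow, lt_div_iff₀ (by positivity), hB]
      have h11 : (0 : ℝ) < (m : ℝ) ^ j := by positivity
      have h12 : (0 : ℝ) < (D : ℝ) ^ j := by positivity
      rw [div_pow, div_mul_eq_mul_div, lt_div_iff₀ h11] at h3
      have h14 := mul_lt_mul_of_pos_right h3 h12
      calc 4 * ((D : ℝ) * m) ^ j * (2 * M) ^ 2 = 16 * (M : ℝ) ^ 2 * (m : ℝ) ^ j * (D : ℝ) ^ j := by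
            rw [mul_pow]; ring
        _ < (D : ℝ) ^ j * a ^ 2 * (D : ℝ) ^ j := h14
        _ = (a * (D : ℝ) ^ j) ^ 2 := by ring
    have h15 : (4 * (D * m) ^ j : ℝ) < (δ + 1) ^ 2 := h10.trans h9
    have h16 : 4 * (D * m) ^ j < (δ + 1) ^ 2 := by exact_mod_cast h15
    have h17 : (δ + 2).choose 2 * 2 = (δ + 2) * (δ + 1) := by
      rw [Nat.choose_two_right]
      have : (δ + 2 - 1) = δ + 1 := by omega
      rw [this]
      refine Nat.div_mul_cancel ?_
      rw [mul_comm]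
      exact (Nat.even_mul_succ_self (δ + 1)).two_dvd
    nlinarith

end Pool.Agent.Helper52.RP
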