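import Pool.Agent.Helper52.RP.PartB

/-!
# Regular maps and curves, improved: one ideal is contained in the ideals of all curves
-/

set_option autoImplicit false

namespace Pool.Agent.Helper52.RP

open MvPolynomial Filter Topology NumberField
open Pool.Agent.Helper64.Vojta (Pl nv)
open Pool.Agent.Helper26.RC (av wt wt_pos Ext van mem_van sz emb Dir one_le_sz pmap infMap)

variable {K Ω : Type*} [Field K] [NumberField K] [Field Ω] [Algebra K Ω] {N d : ℕ}

/-- base change of the map -/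
noncomputable def bc (F : IntermediateField K Ω) (Φ : Fin N → MvPolynomial (Fin N) K) (i : Fin N) :
    MvPolynomial (Fin N) F := MvPolynomial.map (algebraMap K F) (Φ i)

omit [NumberField K] in
theorem aeval_bc (F : IntermediateField K Ω) (Φ : Fin N → MvPolynomial (Fin N) K) (x : Fin N → Ω)
    (i : Fin N) : aeval x (bc F Φ i) = aeval x (Φ i) :=
  MvPolynomial.aeval_map_algebraMap F x (Φ i)

omit [NumberField K] in
theorem deg_map {F : Type*} [Field F] (f : K →+* F) (g : MvPolynomial (Fin N) K) :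
    (MvPolynomial.map f g).totalDegree ≤ g.totalDegree := by
  refine Finset.sup_mono ?_
  exact support_map_subset _ _

omit [NumberField K] in
theorem aeval_emb (x : ℕ → Fin N → K) (n : ℕ) (f : MvPolynomial (Fin N) K) :
    aeval (emb Ω x n) f = algebraMap K Ω (eval (x n) f) := by
  unfold emb
  rw [MvPolynomial.aeval_def, MvPolynomial.eval₂_eq', MvPolynomial.eval_eq', map_sum]
  refine Finset.sum_congr rfl fun m _ => ?_
  rw [map_mul, map_prod]
  simp only [map_pow]

omit [NumberField K] in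
theorem iter_emb (F : IntermediateField K Ω) (Φ : Fin N → MvPolynomial (Fin N) K) (k : ℕ)
    (x : Fin N → K) :
    (fun (x : Fin N → Ω) i => aeval x (bc F Φ i))^[k] (fun i => algebraMap K Ω (x i)) =
      fun i => algebraMap K Ω ((pmap Φ)^[k] x i) := by
  induction k generalizing x with
  | zero => rfl
  | succ k ih =>
    rw [Function.iterate_succ_apply, Function.iterate_succ_apply, ← ih]
    congr 1
    funext i
    rw [aeval_bc]
    exact aeval_emb (fun _ => x) 0 (Φ i)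

theorem partB [IsAlgClosed Ω] (hd : 2 ≤ d) {Φ : Fin N → MvPolynomial (Fin N) K}
    (hdeg : ∀ i, (Φ i).totalDegree ≤ d) (F : IntermediateField K Ω) [FiniteDimensional K F]
    (hF2 : Module.finrank K F ≤ 2) {q : Fin N → F} {i0 : Fin N} (hi0 : q i0 = 1)
    (hlt : ∀ j < i0, q j = 0) {k : ℕ} (hk : 0 < k) {κ : F} (hκ : κ ≠ 0)
    (hq : ∀ i, eval q (Gk d (bc F Φ) k i) = κ * q i)
    (hmult : mult q (sysI d (bc F Φ) k q) < (d ^ k : ℕ))
    {U : Ultrafilter ℕ} {x : ℕ → ℕ → Fin N → K}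
    (hx : ∀ i, ∀ᶠ n in (U : Filter ℕ), x i n = (pmap Φ)^[k] (x (i + 1) n))
    {S : Finset (Pl K)} (hS : ∀ i n, ∀ v, v ∉ S → ∀ l, nv v (x i n l) ≤ 1)
    {t : ℕ → ℝ} (ht : Tendsto t (U : Filter ℕ) atTop) {G : Pl K → ℝ} (hG0 : ∀ v, 0 ≤ G v)
    (hgt : ∀ i, ∀ v ∈ S, Tendsto (fun n => Real.log (sz (av v) (x i n)) / t n) (U : Filter ℕ)
      (𝓝 (G v / ((d : ℝ) ^ k) ^ i)))
    {v : Pl K} (hv : v ∈ S) (hGv : 0 < G v) {μ : AbsoluteValue Ω ℝ} (hμ : Ext v μ)
    (hgrow : ∀ i, Tendsto (fun n => Real.log (sz μ (emb Ω (x i) n))) (U : Filter ℕ) atTop)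
    (hdir : ∀ i, Dir μ U (emb Ω (x i)) (fun j => algebraMap F Ω (q j))) :
    ∃ (J : Ideal (MvPolynomial (Fin N) K)) (j : ℕ),
      (∀ Q : Ideal (MvPolynomial (Fin N) K), Q.IsPrime → J ≤ Q →
        Algebra.trdeg K (MvPolynomial (Fin N) K ⧸ Q) ≤ 1) ∧ ∀ i, J ≤ van U (x (i + j)) := by
  classical
  have hd1 : 1 ≤ d := by omega
  have hDpos : 0 < d ^ k := pow_pos (by omega) k
  have hD2 : 2 ≤ d ^ k := by
    calc 2 ≤ d := hd
      _ = d ^ 1 := (pow_one d).symm
      _ ≤ d ^ k := Nat.pow_le_pow_right (by omega) hk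
  have hdR : (0 : ℝ) < d := by exact_mod_cast (by omega : 0 < d)
  -- the multiplicity
  obtain ⟨m0, hm0⟩ : ∃ m0 : ℕ, mult q (sysI d (bc F Φ) k q) = m0 :=
    Cardinal.lt_aleph0.1 (hmult.trans Cardinal.natCast_lt_aleph0)
  have hm0D : m0 < d ^ k := by
    rw [hm0] at hmult
    exact_mod_cast hmult
  obtain ⟨m, hm, hmm0, hmD⟩ : ∃ m : ℕ, 0 < m ∧ m0 ≤ m ∧ m < d ^ k :=
    ⟨max m0 1, by omega, le_max_left _ _, by omega⟩
  have hsp : ∀ s, Sp (Ideal.span (Set.range fun i =>
      rest (th d (bc F Φ) k κ (X (some i))) - C (q i)) ⊔ mI q ^ s) m := fun s =>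
    (sp_of_mult hm0.le s).mono (sup_le_sup_right (sysI_le hd1 hκ hq) _) hmm0
  have hcol : ∀ s, Sp ((mI (cone q)).map
      (th d (bc F Φ) k κ : MvPolynomial (Option (Fin N)) F →+* MvPolynomial (Option (Fin N)) F) ⊔
      mI (cone q) ^ s) (d ^ k * m) := fun s =>
    sp_var (inv_ne_zero hκ) (th_none _ _ _) (hsp s)
  have hnil : ∀ f ∈ mI (cone q), f ^ m ∈ (mI (cone q)).map
      (th d (bc F Φ) k κ : MvPolynomial (Option (Fin N)) F →+* MvPolynomial (Option (Fin N)) F) ⊔
        mI (cone q) ^ (m + 1) ⊔ Ideal.span {X none} := by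
    intro f hf
    have h1 := sp_key (hsp (m + 1)) 1
    rw [one_mul, pow_one] at h1
    exact h1.nil (le_sup_right.trans le_sup_left) hf
  -- the points
  have hdegF : ∀ i, (bc F Φ i).totalDegree ≤ d := fun i => (deg_map _ _).trans (hdeg i)
  have hP0 : cone q none = 0 := rfl
  have hPs : cone q (some i0) = 1 := hi0
  have hP := psi_fix (Ω := Ω) hd1 hκ hq
  have hxΩ : ∀ i, ∀ᶠ n in (U : Filter ℕ), emb Ω (x i) n =
      (fun (x : Fin N → Ω) i => aeval x (bc F Φ i))^[k] (emb Ω (x (i + 1)) n) := by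
    intro i
    filter_upwards [hx i] with n hn
    unfold emb
    rw [iter_emb, ← hn]
  have hD := fun i => dir_cvg hi0 hlt (hdir i) (hgrow i)
  obtain ⟨a0, ha0, hr0⟩ := (hD 0).2.2
  obtain ⟨τ, a, hap, hτ⟩ := chain (by omega) hdegF hκ hP0 hP hPs hm hmD.le hnil hxΩ
    (fun i => (hD i).1) (fun i => (hD i).2.1) ha0 hr0
  -- parameters
  set st : ℝ := ∑ w ∈ S, wt w * G w with hst
  set av0 : ℝ := wt v * G v with hav0
  have hav : 0 < av0 := mul_pos (by exact_mod_cast wt_pos v) hGv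
  have hst0 : 0 ≤ st := Finset.sum_nonneg fun w _ => mul_nonneg (Nat.cast_nonneg _) (hG0 w)
  obtain ⟨M0, hM0⟩ := exists_nat_ge (st / av0)
  obtain ⟨M, hMdef⟩ : ∃ M : ℕ, M = M0 + 1 := ⟨_, rfl⟩
  have hM1 : 0 < M := by omega
  have hM' : st ≤ M * av0 := by
    rw [div_le_iff₀ hav] at hM0
    rw [hMdef]
    push_cast
    nlinarith
  obtain ⟨j, δ, T, hT, hTa, hchoose⟩ := params hap (D := d ^ k) hM1 hm hmD
  have hTδ : δ < T := by
    rw [hT]
    have : δ * 1 ≤ δ * M := Nat.mul_le_mul_left _ hM1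
    omega
  have hTst : (δ : ℝ) * st < T * av0 := by
    rw [hT]
    push_cast
    have h1 : (δ : ℝ) * st ≤ δ * (M * av0) := mul_le_mul_of_nonneg_left hM' (Nat.cast_nonneg _)
    nlinarith
  have hT3 : ∀ i : ℕ, (δ : ℝ) * ∑ w ∈ S, wt w * (G w / ((d : ℝ) ^ k) ^ i) <
      T * (wt v * (G v / ((d : ℝ) ^ k) ^ i)) := by
    intro i
    have h1 : ∑ w ∈ S, (wt w : ℝ) * (G w / ((d : ℝ) ^ k) ^ i) = st / ((d : ℝ) ^ k) ^ i := by
      rw [hst, Finset.sum_div]
      exact Finset.sum_congr rfl fun w _ => by ring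
    have h2 : (wt v : ℝ) * (G v / ((d : ℝ) ^ k) ^ i) = av0 / ((d : ℝ) ^ k) ^ i := by
      simp only [hav0]
      ring
    rw [h1, h2, ← mul_div_assoc, ← mul_div_assoc]
    exact div_lt_div_of_pos_right hTst (by positivity)
  -- the ideal of the conditions
  obtain ⟨s, hs⟩ : ∃ s : ℕ, s = (d ^ k) ^ j := ⟨_, rfl⟩
  set J0 : Ideal (MvPolynomial (Option (Fin N)) F) :=
    itI (cone q) (th d (bc F Φ) k κ) j ⊔ mI (cone q) ^ s with hJ0
  have hJsp : Sp J0 ((d ^ k * m) ^ j) := sp_iter (eval_th_all hd1 hκ hq) (hcol s) j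
  obtain ⟨hfin, hrank⟩ := hJsp.finite
  have : Module.Finite F (MvPolynomial (Option (Fin N)) F ⧸ J0) := hfin
  have hfinK : Module.Finite K (MvPolynomial (Option (Fin N)) F ⧸ J0) := Module.Finite.trans F _
  let Λ : MvPolynomial (Fin N) K →ₗ[K] (MvPolynomial (Option (Fin N)) F ⧸ J0) :=
    { toFun := fun g => Ideal.Quotient.mk J0 (hg δ (MvPolynomial.map (algebraMap K F) g))
      map_add' := by
        intro g g'
        rw [← map_add]
        congr 1
        unfold hg
        rw [← Finset.sum_add_distrib]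
        refine Finset.sum_congr rfl fun e _ => ?_
        rw [map_add, map_add, map_add, mul_add]
      map_smul' := by
        intro c g
        rw [RingHom.id_apply]
        have e1 : hg δ (MvPolynomial.map (algebraMap K F) (c • g)) =
            c • hg δ (MvPolynomial.map (algebraMap K F) g) := by
          unfold hg
          rw [Finset.smul_sum]
          refine Finset.sum_congr rfl fun e _ => ?_
          have e2 : MvPolynomial.map (algebraMap K F) (c • g) =
              (algebraMap K F c) • MvPolynomial.map (algebraMap K F) g := by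
            rw [MvPolynomial.smul_eq_C_mul, map_mul, MvPolynomial.map_C, ← MvPolynomial.smul_eq_C_mul]
          rw [e2, map_smul, map_smul, mul_smul_comm, algebraMap_smul]
        rw [e1]
        rfl }
  have hΛ : ∀ g, Λ g = 0 ↔ hg δ (MvPolynomial.map (algebraMap K F) g) ∈ J0 := fun g =>
    Ideal.Quotient.eq_zero_iff_mem
  have hfr : Module.finrank K (MvPolynomial (Option (Fin N)) F ⧸ J0) < (δ + 2).choose 2 := by
    rw [← Module.finrank_mul_finrank K F]
    calc Module.finrank K F * Module.finrank F (MvPolynomial (Option (Fin N)) F ⧸ J0)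
        ≤ 2 * (d ^ k * m) ^ j := Nat.mul_le_mul hF2 hrank
      _ < _ := hchoose
  refine ⟨Ideal.span {g | g.totalDegree ≤ δ ∧ Λ g = 0}, j, fun Q hQ hle => ?_, fun i => ?_⟩
  · exact trdeg_of_map Λ hfr Q fun g h1 h2 => hle (Ideal.subset_span ⟨h1, h2⟩)
  · refine Ideal.span_le.2 ?_
    rintro g ⟨hgδ, hgΛ⟩
    rw [hΛ] at hgΛ
    refine liou U (x (i + j)) S (hS (i + j)) t ht (fun w => G w / ((d : ℝ) ^ k) ^ (i + j))
      (fun w hw => hgt (i + j) w hw) hv (by positivity) hμ (hT3 (i + j)) hgδ ?_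
    have hT2 : (T : ℝ) ≤ a * s := by
      rw [hs]
      push_cast
      push_cast at hTa
      exact hTa
    have hTa' : (T : ℝ) ≤ a * ((d : ℝ) ^ k) ^ j := by
      push_cast at hTa
      exact hTa
    obtain ⟨C, hC, hest⟩ := val_final (μ := μ) (U := U) hP0 hκ
      (z := fun i n => pt (τ i n) (emb Ω (x i) n)) (fun i => (hτ i).1) (fun i => (hτ i).2.1)
      (fun i => (hτ i).2.2.1) (fun i => (hτ i).2.2.2) i j s T hTa' hT2 hgΛ
    have hbd0 : 0 ≤ bd μ (cone q) := by
      unfold bd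
      have : 0 ≤ ∑ o, μ (ex Ω (cone q) o) := Finset.sum_nonneg fun _ _ => μ.nonneg _
      linarith
    refine ⟨(C + 1) * (1 + N * bd μ (cone q)) ^ (T - δ), by positivity, ?_⟩
    filter_upwards [hest, (hτ (i + j)).1, (hτ (i + j)).2.1.bdd,
      (hτ (i + j)).2.1.none_lt hP0] with n h1 h2 h3 h4
    have h5 : 0 < μ (τ (i + j) n) := μ.pos h2
    have h6 : μ (τ (i + j) n) < 1 := h4
    have e1 : aeval (pt (τ (i + j) n) (emb Ω (x (i + j)) n))
        (hg δ (MvPolynomial.map (algebraMap K F) g)) =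
        τ (i + j) n ^ δ * aeval (emb Ω (x (i + j)) n) g := by
      rw [aeval_hg_pt ((deg_map _ _).trans hgδ)]
      congr 1
      exact MvPolynomial.aeval_map_algebraMap F _ g
    have h7 : μ (aeval (pt (τ (i + j) n) (emb Ω (x (i + j)) n))
        (hg δ (MvPolynomial.map (algebraMap K F) g))) ≤ C * μ (τ (i + j) n) ^ T := h1
    rw [e1, map_mul, map_pow] at h7
    have h8 : μ (aeval (emb Ω (x (i + j)) n) g) ≤ C * μ (τ (i + j) n) ^ (T - δ) := by
      refine le_of_mul_le_mul_left ?_ (pow_pos h5 δ)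
      calc μ (τ (i + j) n) ^ δ * μ (aeval (emb Ω (x (i + j)) n) g) ≤ C * μ (τ (i + j) n) ^ T := h7
        _ = μ (τ (i + j) n) ^ δ * (C * μ (τ (i + j) n) ^ (T - δ)) := by
          have : μ (τ (i + j) n) ^ T = μ (τ (i + j) n) ^ δ * μ (τ (i + j) n) ^ (T - δ) := by
            rw [← pow_add, Nat.add_sub_cancel' hTδ.le]
          rw [this]
          ring
    have h9 : μ (τ (i + j) n) * sz μ (emb Ω (x (i + j)) n) ≤ 1 + N * bd μ (cone q) := by
      unfold sz
      rw [mul_add, mul_one, Finset.mul_sum]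
      have h10 : ∑ l, μ (τ (i + j) n) * μ (emb Ω (x (i + j)) n l) ≤ ∑ _l : Fin N, bd μ (cone q) :=
        Finset.sum_le_sum fun l _ => by rw [← map_mul]; exact h3 (some l)
      rw [Finset.sum_const, Finset.card_univ, Fintype.card_fin, nsmul_eq_mul] at h10
      linarith
    have hsz1 := one_le_sz μ (emb Ω (x (i + j)) n)
    calc μ (aeval (emb Ω (x (i + j)) n) g) * sz μ (emb Ω (x (i + j)) n) ^ (T - δ)
        ≤ (C * μ (τ (i + j) n) ^ (T - δ)) * sz μ (emb Ω (x (i + j)) n) ^ (T - δ) :=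
          mul_le_mul_of_nonneg_right h8 (by positivity)
      _ = C * (μ (τ (i + j) n) * sz μ (emb Ω (x (i + j)) n)) ^ (T - δ) := by rw [mul_pow]; ring
      _ ≤ C * (1 + N * bd μ (cone q)) ^ (T - δ) :=
          mul_le_mul_of_nonneg_left (pow_le_pow_left₀ (by positivity) h9 _) hC
      _ ≤ (C + 1) * (1 + N * bd μ (cone q)) ^ (T - δ) :=
          mul_le_mul_of_nonneg_right (by linarith) (by positivity)

end Pool.Agent.Helper52.RP
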