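import Pool.Agent.Helper52.RP.Cone

/-!
# Regular maps and curves, improved: values of polynomials near a point
-/

set_option autoImplicit false

namespace Pool.Agent.Helper52.RP

open MvPolynomial Filter Topology

section val

variable {L : Type*} [Field L] {σ : Type*} [Fintype σ] {Ω : Type*} [Field Ω] [Algebra L Ω]

/-- The distance of two points. -/
noncomputable def dst (μ : AbsoluteValue Ω ℝ) (z w : σ → Ω) : ℝ := ∑ o, μ (z o - w o)

theorem dst_nonneg (μ : AbsoluteValue Ω ℝ) (z w : σ → Ω) : 0 ≤ dst μ z w :=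
  Finset.sum_nonneg fun _ _ => μ.nonneg _

theorem le_dst (μ : AbsoluteValue Ω ℝ) (z w : σ → Ω) (o : σ) : μ (z o - w o) ≤ dst μ z w :=
  Finset.single_le_sum (f := fun o => μ (z o - w o)) (fun _ _ => μ.nonneg _) (Finset.mem_univ o)

/-- Polynomials are bounded and Lipschitz on bounded sets. -/
theorem lip52 (μ : AbsoluteValue Ω ℝ) (B : ℝ) (f : MvPolynomial σ L) :
    ∃ C M : ℝ, 0 ≤ C ∧ 0 ≤ M ∧ ∀ Y Y' : σ → Ω, (∀ i, μ (Y i) ≤ B) → (∀ i, μ (Y' i) ≤ B) →
      μ (aeval Y f) ≤ M ∧ μ (aeval Y f - aeval Y' f) ≤ C * dst μ Y Y' := by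
  induction f using MvPolynomial.induction_on with
  | C a =>
    refine ⟨0, μ (algebraMap L Ω a), le_rfl, μ.nonneg _, fun Y Y' _ _ => ?_⟩
    simp
  | add f g hf hg =>
    obtain ⟨C, M, hC, hM, h⟩ := hf
    obtain ⟨C', M', hC', hM', h'⟩ := hg
    refine ⟨C + C', M + M', by positivity, by positivity, fun Y Y' hY hY' => ?_⟩
    have h1 := h Y Y' hY hY'
    have h2 := h' Y Y' hY hY'
    constructor
    · rw [map_add]
      exact (μ.add_le _ _).trans (add_le_add h1.1 h2.1)
    · rw [map_add, map_add, add_sub_add_comm, add_mul]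
      exact (μ.add_le _ _).trans (add_le_add h1.2 h2.2)
  | mul_X f i hf =>
    obtain ⟨C, M, hC, hM, h⟩ := hf
    refine ⟨C * |B| + M, M * |B|, by positivity, by positivity, fun Y Y' hY hY' => ?_⟩
    have h1 := h Y Y' hY hY'
    have hS := le_dst μ Y Y' i
    have hS0 := dst_nonneg μ Y Y'
    constructor
    · rw [map_mul, aeval_X, map_mul]
      exact mul_le_mul h1.1 ((hY i).trans (le_abs_self B)) (μ.nonneg _) hM
    · rw [map_mul, map_mul, aeval_X, aeval_X]
      have e : aeval Y f * Y i - aeval Y' f * Y' i =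
          (aeval Y f - aeval Y' f) * Y' i + aeval Y f * (Y i - Y' i) := by ring
      rw [e]
      refine (μ.add_le _ _).trans ?_
      rw [map_mul, map_mul]
      have h2 : μ (aeval Y f - aeval Y' f) * μ (Y' i) ≤ (C * dst μ Y Y') * |B| :=
        mul_le_mul h1.2 ((hY' i).trans (le_abs_self B)) (μ.nonneg _) (by positivity)
      have h3 : μ (aeval Y f) * μ (Y i - Y' i) ≤ M * dst μ Y Y' :=
        mul_le_mul h1.1 hS (μ.nonneg _) hM
      nlinarith

/-- The point in the extension. -/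
def ex (Ω : Type*) [Field Ω] [Algebra L Ω] (P : σ → L) : σ → Ω := fun o => algebraMap L Ω (P o)

omit [Fintype σ] in
theorem aeval_ex (P : σ → L) (f : MvPolynomial σ L) :
    aeval (ex Ω P) f = algebraMap L Ω (eval P f) := by
  have h := MvPolynomial.aeval_algebraMap_apply Ω P f
  rw [← MvPolynomial.coe_aeval_eq_eval]
  exact h

theorem val_mI (μ : AbsoluteValue Ω ℝ) {B : ℝ} {P : σ → L} (hB : ∀ o, μ (ex Ω P o) ≤ B)
    {f : MvPolynomial σ L} (hf : f ∈ mI P) :
    ∃ C : ℝ, 0 ≤ C ∧ ∀ z : σ → Ω, (∀ o, μ (z o) ≤ B) → μ (aeval z f) ≤ C * dst μ z (ex Ω P) := by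
  obtain ⟨C, M0, hC, -, h⟩ := lip52 μ B f
  refine ⟨C, hC, fun z hz => ?_⟩
  have h1 := (h z (ex Ω P) hz hB).2
  rw [aeval_ex, mem_mI.1 hf, map_zero, sub_zero] at h1
  exact h1

theorem val_pow (μ : AbsoluteValue Ω ℝ) {B : ℝ} {P : σ → L} (hB : ∀ o, μ (ex Ω P o) ≤ B) (s : ℕ)
    {f : MvPolynomial σ L} (hf : f ∈ mI P ^ s) :
    ∃ C : ℝ, 0 ≤ C ∧ ∀ z : σ → Ω, (∀ o, μ (z o) ≤ B) →
      μ (aeval z f) ≤ C * dst μ z (ex Ω P) ^ s := by
  induction s generalizing f with
  | zero =>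
    obtain ⟨C0, M, -, hM, h⟩ := lip52 (Ω := Ω) μ B f
    exact ⟨M, hM, fun z hz => by rw [pow_zero, mul_one]; exact (h z z hz hz).1⟩
  | succ s ih =>
    rw [pow_succ] at hf
    refine Submodule.mul_induction_on hf (C := fun f => ∃ C : ℝ, 0 ≤ C ∧ ∀ z : σ → Ω,
      (∀ o, μ (z o) ≤ B) → μ (aeval z f) ≤ C * dst μ z (ex Ω P) ^ (s + 1)) ?_ ?_
    · intro g hg h hh
      obtain ⟨C, hC, h1⟩ := ih hg
      obtain ⟨C', hC', h2⟩ := val_mI μ hB hh
      refine ⟨C * C', mul_nonneg hC hC', fun z hz => ?_⟩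
      rw [map_mul, map_mul, pow_succ]
      have := mul_le_mul (h1 z hz) (h2 z hz) (μ.nonneg _)
        (mul_nonneg hC (pow_nonneg (dst_nonneg _ _ _) _))
      calc _ ≤ _ := this
        _ = _ := by ring
    · rintro g h ⟨C, hC, h1⟩ ⟨C', hC', h2⟩
      refine ⟨C + C', add_nonneg hC hC', fun z hz => ?_⟩
      rw [map_add, add_mul]
      exact (μ.add_le _ _).trans (add_le_add (h1 z hz) (h2 z hz))

theorem val_it (μ : AbsoluteValue Ω ℝ) {B : ℝ} {P : σ → L} (hB : ∀ o, μ (ex Ω P o) ≤ B)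
    {θ : MvPolynomial σ L →ₐ[L] MvPolynomial σ L} {Ψ : (σ → Ω) → σ → Ω}
    (hΨ : ∀ z f, aeval z (θ f) = aeval (Ψ z) f) (j : ℕ) {f : MvPolynomial σ L} (hf : f ∈ itI P θ j) :
    ∃ C : ℝ, 0 ≤ C ∧ ∀ z : σ → Ω, (∀ i ≤ j, ∀ o, μ (Ψ^[i] z o) ≤ B) →
      μ (aeval z f) ≤ C * dst μ (Ψ^[j] z) (ex Ω P) := by
  induction j generalizing f with
  | zero =>
    obtain ⟨C, hC, h⟩ := val_mI μ hB hf
    exact ⟨C, hC, fun z hz => h z (hz 0 le_rfl)⟩
  | succ j ih =>
    rw [itI_succ, Ideal.map] at hf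
    refine Submodule.span_induction (p := fun f _ => ∃ C : ℝ, 0 ≤ C ∧ ∀ z : σ → Ω,
      (∀ i ≤ j + 1, ∀ o, μ (Ψ^[i] z o) ≤ B) →
        μ (aeval z f) ≤ C * dst μ (Ψ^[j + 1] z) (ex Ω P)) ?_ ?_ ?_ ?_ hf
    · rintro _ ⟨g, hg, rfl⟩
      obtain ⟨C, hC, h⟩ := ih hg
      refine ⟨C, hC, fun z hz => ?_⟩
      change μ (aeval z (θ g)) ≤ _
      rw [hΨ, Function.iterate_succ_apply]
      refine h (Ψ z) fun i hi o => ?_
      have h1 := hz (i + 1) (by omega) o
      rw [Function.iterate_succ_apply] at h1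
      exact h1
    · exact ⟨0, le_rfl, fun z _ => by simp⟩
    · rintro g h - - ⟨C, hC, h1⟩ ⟨C', hC', h2⟩
      refine ⟨C + C', add_nonneg hC hC', fun z hz => ?_⟩
      rw [map_add, add_mul]
      exact (μ.add_le _ _).trans (add_le_add (h1 z hz) (h2 z hz))
    · rintro r g - ⟨C, hC, h1⟩
      obtain ⟨C0, M, -, hM, h2⟩ := lip52 (Ω := Ω) μ B r
      refine ⟨M * C, mul_nonneg hM hC, fun z hz => ?_⟩
      rw [smul_eq_mul, map_mul, map_mul, mul_assoc]
      exact mul_le_mul (h2 z z (hz 0 (by omega)) (hz 0 (by omega))).1 (h1 z hz) (μ.nonneg _) hM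

end val

section root

variable {Ω : Type*} [Field Ω] [IsAlgClosed Ω]

/-- The nearest root. -/
theorem near_root (μ : AbsoluteValue Ω ℝ) {D : ℕ} (hD : 0 < D) (b : Ω) :
    ∃ ρ : Ω, ρ ^ D = b ∧ μ (1 - ρ) ^ D ≤ μ (1 - b) := by
  let f : Polynomial Ω := Polynomial.X ^ D - Polynomial.C b
  have hmon : f.Monic := Polynomial.monic_X_pow_sub_C b hD.ne'
  have hdeg : f.natDegree = D := Polynomial.natDegree_X_pow_sub_C
  have hsp : f.Splits := IsAlgClosed.splits f
  have hcard : f.roots.card = D := by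
    rw [← hdeg]
    exact hsp.natDegree_eq_card_roots.symm
  have hprod : (1 : Ω) - b = (f.roots.map fun a => 1 - a).prod := by
    have h1 := hsp.eval_eq_prod_roots_of_monic hmon 1
    rw [← h1]
    simp [f]
  by_contra hcon
  push Not at hcon
  have hroot : ∀ ρ ∈ f.roots, ρ ^ D = b := by
    intro ρ hρ
    have h1 := (Polynomial.mem_roots hmon.ne_zero).1 hρ
    rw [Polynomial.IsRoot.def] at h1
    simp only [f, Polynomial.eval_sub, Polynomial.eval_pow, Polynomial.eval_X, Polynomial.eval_C] at h1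
    exact sub_eq_zero.1 h1
  have hlt : ∀ ρ ∈ f.roots, μ (1 - b) < μ (1 - ρ) ^ D := fun ρ hρ => hcon ρ (hroot ρ hρ)
  -- compare the products
  have key : ∀ s : Multiset Ω, (∀ ρ ∈ s, μ (1 - b) < μ (1 - ρ) ^ D) →
      μ (1 - b) ^ s.card ≤ μ (s.map fun a => 1 - a).prod ^ D ∧
        (s ≠ 0 → μ (1 - b) ^ s.card < μ (s.map fun a => 1 - a).prod ^ D) := by
    intro s
    induction s using Multiset.induction_on with
    | empty => intro _; simp
    | cons a s ih =>
      intro h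
      obtain ⟨h1, -⟩ := ih fun ρ hρ => h ρ (Multiset.mem_cons_of_mem hρ)
      have h2 := h a (Multiset.mem_cons_self a s)
      have h3 : μ (1 - b) ^ (a ::ₘ s).card < μ ((a ::ₘ s).map fun a => 1 - a).prod ^ D := by
        rw [Multiset.card_cons, Multiset.map_cons, Multiset.prod_cons, map_mul, mul_pow, pow_succ']
        rcases h1.eq_or_lt with h4 | h4
        · rcases (μ.nonneg (1 - b)).eq_or_lt with h5 | h5
          · -- the value at the left is zero
            by_cases hs : s.card = 0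
            · rw [← h4, hs, pow_zero, mul_one, mul_one]
              exact h2
            · exfalso
              rw [← h5, zero_pow hs] at h4
              have h6 : ∀ ρ ∈ s, μ (1 - ρ) ≠ 0 := by
                intro ρ hρ h7
                have h8 := h ρ (Multiset.mem_cons_of_mem hρ)
                rw [h7, zero_pow hD.ne'] at h8
                exact absurd h8 (not_lt.2 (μ.nonneg _))
              have h9 : μ (s.map fun a => 1 - a).prod = 0 := by
                exact pow_eq_zero_iff hD.ne' |>.1 h4.symm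
              rw [μ.eq_zero, Multiset.prod_eq_zero_iff, Multiset.mem_map] at h9
              obtain ⟨ρ, hρ, h10⟩ := h9
              refine h6 ρ hρ ?_
              rw [h10, map_zero]
          · rw [← h4]
            exact mul_lt_mul_of_pos_right h2 (pow_pos h5 _)
        · exact mul_lt_mul'' h2 h4 (μ.nonneg _) (pow_nonneg (μ.nonneg _) _)
      exact ⟨h3.le, fun _ => h3⟩
  have h1 := (key f.roots hlt).2 (by
    intro h0
    rw [h0, Multiset.card_zero] at hcard
    omega)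
  rw [hcard, ← hprod] at h1
  exact lt_irrefl _ h1

end root

end Pool.Agent.Helper52.RP
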